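import Pool.Agent.MotP.Reg
import Pool.Agent.Mot.Conv

/-!
# The equivalence under the strong Tate conjecture (MP_6c4da4_ag, by helper8)
-/

open CategoryTheory MonoidalCategory BraidedCategory Limits

universe v u

namespace MotP

open Mot

noncomputable section

set_option linter.unusedSectionVars false

variable {C : Type u} [Category.{v} C] [Preadditive C] [Linear ℚ C] [MonoidalCategory C]
  [SymmetricCategory C] [MonoidalPreadditive C] [MonoidalLinear ℚ C] [RightRigidCategory C]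

/-- the trace on the unit is the identity -/
lemma tr_self' (h : ∀ f : 𝟙_ C ⟶ 𝟙_ C, ∃ r : ℚ, f = r • 𝟙 (𝟙_ C)) (s : 𝟙_ C ⟶ 𝟙_ C) :
    tr (𝟙_ C) s = s := by
  obtain ⟨r, rfl⟩ := h s
  rw [tr_smul, Frob.tr_unit]

/-- the structure used in the proofs -/
def Frobenius.toFrob (W : Frobenius C)
    (h : ∀ (X Y : C) (f : X ⟶ Y), NumTrivial f → f = 0) : Frob C where
  scalar := W.scalar
  ne := W.unit_ne
  F := W.F
  F_unit := W.F_unit
  F_tensor := W.F_tensor
  α := W.even
  β := W.odd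
  trace := by
    intro X n r h
    apply W.trace_formula X n r
    rw [← h]
    have h1 : component W.F X ^ n = (pw (W.F.app X) n : End X) := end_pow _ n
    rw [h1]
    rfl
  odd := W.one_not_odd
  nd := by
    intro X f hf
    apply h
    intro g
    have h1 := tr_self' W.scalar (f ≫ g)
    rw [hf g] at h1
    rw [hf g]
    exact tr_zero

/-- in the abelian case -/
def Frobenius.toMot {C : Type u} [Category.{v} C] [Abelian C] [Linear ℚ C] [MonoidalCategory C]
    [SymmetricCategory C] [MonoidalPreadditive C] [MonoidalLinear ℚ C] [RightRigidCategory C]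
    (W : Frobenius C) : Mot.Frob C where
  scalar := W.scalar
  ne := W.unit_ne
  F := W.F
  F_unit := W.F_unit
  F_tensor := W.F_tensor
  α := W.even
  β := W.odd
  trace := by
    intro X n r h
    apply W.trace_formula X n r
    rw [← h]
    have h1 : component W.F X ^ n = (pw (W.F.app X) n : End X) := end_pow _ n
    rw [h1]
    rfl
  odd := W.one_not_odd

section Ab

variable {C : Type u} [Category.{v} C] [Abelian C] [Linear ℚ C] [MonoidalCategory C]
  [SymmetricCategory C] [MonoidalPreadditive C] [MonoidalLinear ℚ C] [RightRigidCategory C]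

/-- a morphism is determined by the corresponding morphism to the unit -/
lemma cn_inj {X Y : C} (f : X ⟶ Y) (h : f ▷ Yᘁ ≫ ev Y Yᘁ = 0) : f = 0 := by
  let inst := exactPairing_swap Y Yᘁ
  have h1 : (tensorRightHomEquiv X Yᘁ Y (𝟙_ C)).invFun (f ≫ (λ_ Y).inv) = 0 := by
    rw [← h]
    change (f ≫ (λ_ Y).inv) ▷ Yᘁ ≫ (α_ _ _ _).hom ≫ (𝟙_ C) ◁ ev Y Yᘁ ≫ (ρ_ (𝟙_ C)).hom = _
    monoidal
  have h2 : (tensorRightHomEquiv X Yᘁ Y (𝟙_ C)).invFun 0 = 0 := by
    change (0 : X ⟶ 𝟙_ C ⊗ Y) ▷ Yᘁ ≫ (α_ _ _ _).hom ≫ (𝟙_ C) ◁ ev Y Yᘁ ≫ (ρ_ (𝟙_ C)).hom = _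
    rw [MonoidalPreadditive.zero_whiskerRight, Limits.zero_comp]
  have h3 : f ≫ (λ_ Y).inv = 0 :=
    (tensorRightHomEquiv X Yᘁ Y (𝟙_ C)).symm.injective (h1.trans h2.symm)
  rw [← cancel_mono (λ_ Y).inv, h3, Limits.zero_comp]

/-- in the abelian case: strong Tate implies that the multiplicities are at most the dimensions
of the spaces of sections -/
lemma le_of_tate (W : Frobenius C) (hT : W.StrongTate) (X : C) :
    (((W.even X).count 1 : ℕ) : Cardinal) ≤ Module.rank ℚ (𝟙_ C ⟶ X) := by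
  rw [← hT X]
  exact rank_quotient_le _

lemma num_of_le (W : Frobenius C)
    (h : ∀ X : C, (((W.even X).count 1 : ℕ) : Cardinal) ≤ Module.rank ℚ (𝟙_ C ⟶ X)) :
    (∀ (X Y : C) (f : X ⟶ Y), NumTrivial f → f = 0) ∧ W.StrongTate := by
  have hb : ∀ X : C, Module.finrank ℚ (𝟙_ C ⟶ X) = (W.even X).count 1 ∧
      Mot.Nt' X = ⊥ := by
    intro X
    have hfin := W.toMot.finite_hom (𝟙_ C) X
    have hfin' := W.toMot.finite_hom X (𝟙_ C)
    have h1 : Module.finrank ℚ (𝟙_ C ⟶ X) + Module.finrank ℚ (Mot.Nt' X) ≤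
      (W.even X).count 1 := W.toMot.bound X
    have h2 := h X
    rw [← Module.finrank_eq_rank, Nat.cast_le] at h2
    refine ⟨by omega, ?_⟩
    apply Submodule.finrank_eq_zero.mp
    omega
  have hnum : ∀ (X Y : C) (f : X ⟶ Y), NumTrivial f → f = 0 := by
    intro X Y f hf
    apply cn_inj
    have h1 : (f ▷ Yᘁ ≫ ev Y Yᘁ) ∈ Mot.Nt' (X ⊗ Yᘁ) := by
      intro s
      obtain ⟨g, rfl⟩ := nm_surj s
      have h2 : nm g ≫ f ▷ Yᘁ ≫ ev Y Yᘁ = Mot.tr Y (g ≫ f) := by
        unfold nm Mot.tr trP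
        rw [comp_whiskerRight, Category.assoc, Category.assoc]
      rw [h2, Mot.Frob.tr_comm]
      exact hf g
    rw [(hb _).2, Submodule.mem_bot] at h1
    exact h1
  refine ⟨hnum, ?_⟩
  intro X
  have hfin := W.toMot.finite_hom (𝟙_ C) X
  have h1 : ntSections X = ⊥ := by
    rw [eq_bot_iff]
    intro f hf
    rw [Submodule.mem_bot]
    apply hnum
    intro g
    have h2 := hf g
    rw [h2]
    exact Mot.tr_zero
  have h2 : Module.rank ℚ ((𝟙_ C ⟶ X) ⧸ ntSections X) = Module.rank ℚ (𝟙_ C ⟶ X) := by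
    rw [h1]
    exact (Submodule.quotEquivOfEqBot (⊥ : Submodule ℚ (𝟙_ C ⟶ X)) rfl).rank_eq
  rw [h2, ← Module.finrank_eq_rank, (hb X).1]

end Ab

/-- the equivalence -/
theorem equivalence [HasFiniteBiproducts C] [IsIdempotentComplete C] (W : Frobenius C) :
    List.TFAE [IsAbelian C ∧ ∀ X : C,
        (((W.even X).count 1 : ℕ) : Cardinal) ≤ Module.rank ℚ (𝟙_ C ⟶ X),
      IsAbelian C ∧ W.StrongTate,
      (∀ (X Y : C) (f : X ⟶ Y), NumTrivial f → f = 0) ∧ W.StrongTate] := by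
  tfae_have 2 → 1 := by
    rintro ⟨h, hT⟩
    refine ⟨h, fun X => ?_⟩
    rw [← hT X]
    exact rank_quotient_le _
  tfae_have 1 → 3 := by
    rintro ⟨⟨hK, hCK, hcomp⟩, hT⟩
    have hc : ∀ {X Y : C} (f : X ⟶ Y), IsIso (Abelian.coimageImageComparison f) :=
      fun f => hcomp _ _ f
    let _ : Abelian C := Abelian.ofCoimageImageComparisonIsIso
    exact num_of_le W hT
  tfae_have 3 → 2 := by
    rintro ⟨h, hT⟩
    exact ⟨(W.toFrob h).isAbelian, hT⟩
  tfae_finish

end

end MotP
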