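import Pool.Agent.Mot.Defs

/-!
# Definitions for the equivalence under the strong Tate conjecture (MP_6c4da4_ag, by helper8)
-/

open CategoryTheory MonoidalCategory BraidedCategory Limits

universe v u

namespace MotP

noncomputable section

/-- `C` is abelian: every morphism has a kernel and a cokernel, and the canonical morphism from the
coimage to the image is an isomorphism (finite biproducts are assumed where this is used). -/
def IsAbelian (C : Type u) [Category.{v} C] [Preadditive C] : Prop :=
  ∃ (_ : HasKernels C) (_ : HasCokernels C),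
    ∀ (X Y : C) (f : X ⟶ Y), IsIso (Abelian.coimageImageComparison f)

/-- A Frobenius structure on a `ℚ`-linear rigid symmetric monoidal category `C`, which is not
assumed to be abelian (compare `Mot.Frobenius`).  The endomorphisms of the unit are the rational
scalars, `F` is a monoidal natural endomorphism of the identity functor, and `even X`, `odd X` are
finite multisets of complex numbers (the eigenvalues of Frobenius on the even and on the odd part of
the cohomology of `X`) such that the trace formula
`tr (F_X ^ n) = ∑ z ^ n (z in even X) - ∑ z ^ n (z in odd X)` holds for all `n ≥ 0` and such that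
`1` is never an odd eigenvalue. -/
structure Frobenius (C : Type u) [Category.{v} C] [Preadditive C] [Linear ℚ C]
    [MonoidalCategory C] [SymmetricCategory C] [MonoidalPreadditive C] [MonoidalLinear ℚ C]
    [RightRigidCategory C] where
  scalar : ∀ f : 𝟙_ C ⟶ 𝟙_ C, ∃ r : ℚ, f = r • 𝟙 (𝟙_ C)
  unit_ne : 𝟙 (𝟙_ C) ≠ 0
  F : 𝟭 C ⟶ 𝟭 C
  F_unit : F.app (𝟙_ C) = 𝟙 (𝟙_ C)
  F_tensor : ∀ X Y : C, F.app (X ⊗ Y) = F.app X ⊗ₘ F.app Y
  even : C → Multiset ℂ
  odd : C → Multiset ℂ
  trace_formula : ∀ (X : C) (n : ℕ) (r : ℚ),
    Mot.trace (Mot.component F X ^ n) = r • 𝟙 (𝟙_ C) →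
      (r : ℂ) = ((even X).map (fun z => z ^ n)).sum - ((odd X).map (fun z => z ^ n)).sum
  one_not_odd : ∀ X : C, (1 : ℂ) ∉ odd X

variable {C : Type u} [Category.{v} C] [Preadditive C] [Linear ℚ C] [MonoidalCategory C]
  [SymmetricCategory C] [MonoidalPreadditive C] [MonoidalLinear ℚ C] [RightRigidCategory C]

/-- `f : X ⟶ Y` is numerically trivial: `tr (g f) = 0` for all `g : Y ⟶ X`. -/
def NumTrivial {X Y : C} (f : X ⟶ Y) : Prop := ∀ g : Y ⟶ X, Mot.trace (f ≫ g) = 0

/-- the sections `𝟙 ⟶ X` which are numerically trivial: their composites with all `X ⟶ 𝟙` are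
zero -/
def ntSections (X : C) : Submodule ℚ (𝟙_ C ⟶ X) where
  carrier := {f | ∀ g : X ⟶ 𝟙_ C, f ≫ g = 0}
  add_mem' {a b} ha hb g := by
    rw [Preadditive.add_comp, ha g, hb g, add_zero]
  zero_mem' g := Limits.zero_comp
  smul_mem' r a ha g := by
    rw [Linear.smul_comp, ha g, smul_zero]

/-- The strong form of the Tate conjecture: for every object `X`, the dimension of the space of
sections `𝟙 ⟶ X` modulo the numerically trivial ones is the multiplicity of the eigenvalue `1` in
`even X`. -/
def Frobenius.StrongTate (W : Frobenius C) : Prop :=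
  ∀ X : C, Module.rank ℚ ((𝟙_ C ⟶ X) ⧸ ntSections X) = ((W.even X).count 1 : ℕ)

end

end MotP
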