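import Pool.Agent.MotP.Nil
import Pool.Agent.MotP.Defs

/-!
# Semisimplicity without numerically trivial morphisms (MP_6c4da4_ag, by helper8)

A pseudo-abelian rigid tensor category with a Frobenius structure and without numerically trivial
morphisms is von Neumann regular, hence abelian and semisimple.
-/

open CategoryTheory MonoidalCategory BraidedCategory Limits

universe v u

namespace MotP

open Mot

noncomputable section

set_option linter.unusedSectionVars false

section Regular

variable {C : Type u} [Category.{v} C] [Preadditive C]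

lemma hasKernel_of_regular [IsIdempotentComplete C] {X Y : C} (f : X ⟶ Y) (g : Y ⟶ X)
    (h : f ≫ g ≫ f = f) : HasKernel f := by
  have h4 : (𝟙 X - f ≫ g) ≫ (𝟙 X - f ≫ g) = 𝟙 X - f ≫ g := by
    rw [Preadditive.sub_comp, Preadditive.comp_sub, Preadditive.comp_sub, Category.id_comp,
      Category.comp_id, Category.id_comp, ← Category.assoc, Category.assoc f g f, h]
    abel
  obtain ⟨K, i, p, h5, h6⟩ := IsIdempotentComplete.idempotents_split X _ h4
  have h7 : i ≫ f = 0 := by
    have e1 : i = i ≫ (𝟙 X - f ≫ g) := by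
      rw [← h6, ← Category.assoc, h5, Category.id_comp]
    rw [e1, Category.assoc, Preadditive.sub_comp, Category.id_comp, Category.assoc, h, sub_self,
      Limits.comp_zero]
  have hmono : Mono i := mono_of_mono_fac h5
  exact HasLimit.mk ⟨_, KernelFork.IsLimit.ofι' i h7 (fun {A} k hk => ⟨k ≫ p, by
    rw [Category.assoc, h6, Preadditive.comp_sub, Category.comp_id, ← Category.assoc, hk,
      Limits.zero_comp, sub_zero]⟩)⟩

lemma hasCokernel_of_regular [IsIdempotentComplete C] {X Y : C} (f : X ⟶ Y) (g : Y ⟶ X)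
    (h : f ≫ g ≫ f = f) : HasCokernel f := by
  have h4 : (𝟙 Y - g ≫ f) ≫ (𝟙 Y - g ≫ f) = 𝟙 Y - g ≫ f := by
    rw [Preadditive.sub_comp, Preadditive.comp_sub, Preadditive.comp_sub, Category.id_comp,
      Category.comp_id, Category.id_comp, Category.assoc, h]
    abel
  obtain ⟨K, i, p, h5, h6⟩ := IsIdempotentComplete.idempotents_split Y _ h4
  have h7 : f ≫ p = 0 := by
    have e1 : p = (𝟙 Y - g ≫ f) ≫ p := by
      rw [← h6, Category.assoc, h5, Category.comp_id]
    rw [e1, ← Category.assoc, Preadditive.comp_sub, Category.comp_id, h, sub_self,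
      Limits.zero_comp]
  have hepi : Epi p := epi_of_epi_fac h5
  exact HasColimit.mk ⟨_, CokernelCofork.IsColimit.ofπ' p h7 (fun {A} k hk => ⟨i ≫ k, by
    rw [← Category.assoc, h6, Preadditive.sub_comp, Category.id_comp, Category.assoc, hk,
      Limits.comp_zero, sub_zero]⟩)⟩

lemma normalMono_of_regular {X Y : C} (f : X ⟶ Y) [Mono f] (g : Y ⟶ X)
    (h : f ≫ g ≫ f = f) : Nonempty (NormalMono f) := by
  have h1 : f ≫ (𝟙 Y - g ≫ f) = 0 := by
    rw [Preadditive.comp_sub, Category.comp_id, h, sub_self]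
  exact ⟨⟨Y, 𝟙 Y - g ≫ f, h1, KernelFork.IsLimit.ofι' f h1 (fun {A} k hk => ⟨k ≫ g, by
    rw [Preadditive.comp_sub, Category.comp_id, sub_eq_zero] at hk
    rw [Category.assoc]
    exact hk.symm⟩)⟩⟩

lemma normalEpi_of_regular {X Y : C} (f : X ⟶ Y) [Epi f] (g : Y ⟶ X)
    (h : f ≫ g ≫ f = f) : Nonempty (NormalEpi f) := by
  have h1 : (𝟙 X - f ≫ g) ≫ f = 0 := by
    rw [Preadditive.sub_comp, Category.id_comp, Category.assoc, h, sub_self]
  exact ⟨⟨X, 𝟙 X - f ≫ g, h1, CokernelCofork.IsColimit.ofπ' f h1 (fun {A} k hk => ⟨g ≫ k, by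
    rw [Preadditive.sub_comp, Category.id_comp, sub_eq_zero] at hk
    rw [← Category.assoc]
    exact hk.symm⟩)⟩⟩

/-- a regular pseudo-abelian category is abelian -/
theorem isAbelian_of_regular [HasFiniteBiproducts C] [IsIdempotentComplete C]
    (h : ∀ (X Y : C) (f : X ⟶ Y), ∃ g : Y ⟶ X, f ≫ g ≫ f = f) : IsAbelian C := by
  have hK : HasKernels C := ⟨fun {X Y} f => by
    obtain ⟨g, hg⟩ := h X Y f
    exact hasKernel_of_regular f g hg⟩
  have hCK : HasCokernels C := ⟨fun {X Y} f => by
    obtain ⟨g, hg⟩ := h X Y f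
    exact hasCokernel_of_regular f g hg⟩
  have hM : IsNormalMonoCategory C := ⟨fun {X Y} f _ => by
    obtain ⟨g, hg⟩ := h X Y f
    exact normalMono_of_regular f g hg⟩
  have hE : IsNormalEpiCategory C := ⟨fun {X Y} f _ => by
    obtain ⟨g, hg⟩ := h X Y f
    exact normalEpi_of_regular f g hg⟩
  let _ : Abelian C := { }
  exact ⟨hK, hCK, fun X Y f => inferInstance⟩

end Regular

variable {C : Type u} [Category.{v} C] [Preadditive C] [Linear ℚ C] [MonoidalCategory C]
  [SymmetricCategory C] [MonoidalPreadditive C] [MonoidalLinear ℚ C] [RightRigidCategory C]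

namespace Frob

variable (W : Frob C)

include W in
lemma num_zero {X Y : C} (f : X ⟶ Y) (hf : ∀ g : Y ⟶ X, tr X (f ≫ g) = 0) : f = 0 := by
  have h1 : nm f = 0 := by
    apply W.nd
    intro g
    obtain ⟨h, rfl⟩ := ev_surj g
    rw [nm_ev]
    exact hf h
  apply nm_inj
  rw [h1]
  exact (map_zero (nmL X Y)).symm

section Split

variable [IsIdempotentComplete C]

include W in
theorem semisimple (X : C) : IsSemisimpleRing (End X) := by
  have hfin : Module.Finite ℚ (End X) := W.finite_hom X X
  have hart : IsArtinianRing (End X) := IsArtinianRing.of_finite ℚ (End X)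
  rw [IsArtinianRing.isSemisimpleRing_iff_jacobson, eq_bot_iff]
  intro x hx
  obtain ⟨n, hn⟩ := (inferInstance : IsSemiprimaryRing (End X)).isNilpotent
  rw [Submodule.mem_bot]
  apply W.num_zero (X := X) (Y := X) x
  intro g
  have key : ∀ y : End X, (y * x) ^ n = 0 := by
    intro y
    have h1 : y * x ∈ Ring.jacobson (End X) := Ideal.mul_mem_left _ _ hx
    have h3 := Ideal.pow_mem_pow h1 n
    rw [hn] at h3
    exact h3
  have h2 := key g
  rw [end_pow] at h2
  exact W.tr_nil _ n h2

include W in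
/-- von Neumann regularity -/
theorem regular {X Y : C} (f : X ⟶ Y) : ∃ g : Y ⟶ X, f ≫ g ≫ f = f := by
  have hss := W.semisimple X
  let I : Ideal (End X) :=
    { carrier := {x | ∃ g : Y ⟶ X, x = f ≫ g}
      add_mem' := by
        rintro _ _ ⟨a, rfl⟩ ⟨b, rfl⟩
        exact ⟨a + b, (Preadditive.comp_add _ _ _ _ _ _).symm⟩
      zero_mem' := ⟨0, Limits.comp_zero.symm⟩
      smul_mem' := by
        rintro c _ ⟨a, rfl⟩
        exact ⟨a ≫ c, Category.assoc _ _ _⟩ }
  obtain ⟨e, he, hI⟩ := IsSemisimpleRing.ideal_eq_span_idempotent I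
  have heI : e ∈ I := by
    rw [hI]
    exact Ideal.mem_span_singleton_self e
  obtain ⟨g, hg⟩ := heI
  refine ⟨g, ?_⟩
  have h1 : ∀ k : Y ⟶ X, e ≫ (f ≫ k) = f ≫ k := by
    intro k
    obtain ⟨x, hx⟩ : ∃ x : End X, x = f ≫ k := ⟨_, rfl⟩
    have h2 : x ∈ Ideal.span {e} := by
      rw [← hI]
      exact ⟨k, hx⟩
    rw [Ideal.mem_span_singleton'] at h2
    obtain ⟨r, hr⟩ := h2
    have h3 : x * e = x := by
      rw [← hr, mul_assoc, he.eq]
    rw [← hx]
    exact h3
  have h2 : e ≫ f - f = 0 := by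
    apply W.num_zero
    intro k
    rw [Preadditive.sub_comp, Category.assoc, h1, sub_self, tr_zero]
  rw [sub_eq_zero] at h2
  have h3 : (f ≫ g) ≫ f = f := by
    rw [← hg]
    exact h2
  rw [← Category.assoc]
  exact h3

include W in
/-- without numerically trivial morphisms the category is abelian -/
theorem isAbelian [HasFiniteBiproducts C] : IsAbelian C :=
  isAbelian_of_regular (fun _ _ f => W.regular f)

end Split

end Frob

end

end MotP
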