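import Pool.Agent.Mot.Tate

/-!
# Frobenius structures on pseudo-abelian rigid tensor categories (MP_6c4da4_ag, by helper8)

The lemmas of `Pool.Agent.Mot` (by helper97) for categories which are not assumed to be abelian:
idempotents split, and no nonzero morphism from the unit is numerically trivial.
-/

open CategoryTheory MonoidalCategory BraidedCategory Limits

universe v u

namespace MotP

open Mot

noncomputable section

set_option linter.unusedSectionVars false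

variable (C : Type u) [Category.{v} C] [Preadditive C] [Linear ℚ C] [MonoidalCategory C]
  [SymmetricCategory C] [MonoidalPreadditive C] [MonoidalLinear ℚ C] [RightRigidCategory C]

variable {C} in
/-- the trace of an endomorphism -/
def tr (X : C) (f : X ⟶ X) : 𝟙_ C ⟶ 𝟙_ C := trP X Xᘁ f

/-- A Frobenius structure without numerically trivial morphisms -/
structure Frob where
  scalar : ∀ f : 𝟙_ C ⟶ 𝟙_ C, ∃ r : ℚ, f = r • 𝟙 (𝟙_ C)
  ne : 𝟙 (𝟙_ C) ≠ 0
  F : 𝟭 C ⟶ 𝟭 C
  F_unit : F.app (𝟙_ C) = 𝟙 (𝟙_ C)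
  F_tensor : ∀ X Y : C, F.app (X ⊗ Y) = F.app X ⊗ₘ F.app Y
  α : C → Multiset ℂ
  β : C → Multiset ℂ
  trace : ∀ (X : C) (n : ℕ) (r : ℚ), tr X (pw (F.app X) n) = r • 𝟙 (𝟙_ C) →
    (r : ℂ) = ((α X).map (fun z => z ^ n)).sum - ((β X).map (fun z => z ^ n)).sum
  odd : ∀ X : C, (1 : ℂ) ∉ β X
  nd : ∀ (X : C) (f : 𝟙_ C ⟶ X), (∀ g : X ⟶ 𝟙_ C, f ≫ g = 0) → f = 0

variable {C}

lemma tr_add {X : C} (f g : X ⟶ X) : tr X (f + g) = tr X f + tr X g := by
  unfold tr trP
  rw [MonoidalPreadditive.add_whiskerRight, Preadditive.add_comp, Preadditive.comp_add]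

lemma tr_smul {X : C} (r : ℚ) (f : X ⟶ X) : tr X (r • f) = r • tr X f := by
  unfold tr trP
  rw [MonoidalLinear.smul_whiskerRight, Linear.smul_comp, Linear.comp_smul]

lemma tr_sub {X : C} (f g : X ⟶ X) : tr X (f - g) = tr X f - tr X g := by
  rw [sub_eq_add_neg, ← neg_one_smul ℚ g, tr_add, tr_smul, neg_one_smul, ← sub_eq_add_neg]

lemma tr_zero {X : C} : tr X (0 : X ⟶ X) = 0 := by
  rw [← zero_smul ℚ (0 : X ⟶ X), tr_smul, zero_smul]

lemma tr_comm {X Y : C} (f : X ⟶ Y) (g : Y ⟶ X) : tr X (f ≫ g) = tr Y (g ≫ f) := trP_comm f g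

lemma pw_comm {X : C} (f : X ⟶ X) (n : ℕ) : f ≫ pw f n = pw f n ≫ f := by
  induction n with
  | zero => simp [pw]
  | succ n ih =>
    have h : pw f (n + 1) = pw f n ≫ f := rfl
    rw [h, ← Category.assoc, ih]

lemma pw_add {X : C} (f : X ⟶ X) (m n : ℕ) : pw f (m + n) = pw f m ≫ pw f n := by
  induction n with
  | zero => simp [pw]
  | succ n ih =>
    have h : pw f (m + (n + 1)) = pw f (m + n) ≫ f := rfl
    have h' : pw f (n + 1) = pw f n ≫ f := rfl
    rw [h, ih, h', Category.assoc]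

lemma end_pow {X : C} (f : End X) (n : ℕ) : f ^ n = (pw (f : X ⟶ X) n : End X) := by
  induction n with
  | zero => rfl
  | succ n ih =>
    have h : pw (f : X ⟶ X) (n + 1) = pw (f : X ⟶ X) n ≫ f := rfl
    rw [pow_succ, ih, h, ← pw_comm]
    rfl

namespace Frob

variable (W : Frob C)

/-- the scalar of an endomorphism of the unit -/
def val (f : 𝟙_ C ⟶ 𝟙_ C) : ℚ := (W.scalar f).choose

lemma val_spec (f : 𝟙_ C ⟶ 𝟙_ C) : f = W.val f • 𝟙 (𝟙_ C) := (W.scalar f).choose_spec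

lemma smul_inj (W : Frob C) {r s : ℚ} (h : r • 𝟙 (𝟙_ C) = s • 𝟙 (𝟙_ C)) : r = s := by
  have h1 : (r - s) • 𝟙 (𝟙_ C) = 0 := by rw [sub_smul, h, sub_self]
  rcases smul_eq_zero.mp h1 with h2 | h2
  · linarith
  · exact absurd h2 W.ne

lemma val_eq {f : 𝟙_ C ⟶ 𝟙_ C} {r : ℚ} (h : f = r • 𝟙 (𝟙_ C)) : W.val f = r :=
  W.smul_inj ((W.val_spec f).symm.trans h)

lemma val_add (f g : 𝟙_ C ⟶ 𝟙_ C) : W.val (f + g) = W.val f + W.val g := by
  apply W.val_eq
  rw [add_smul, ← W.val_spec, ← W.val_spec]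

lemma val_smul (r : ℚ) (f : 𝟙_ C ⟶ 𝟙_ C) : W.val (r • f) = r * W.val f := by
  apply W.val_eq
  rw [mul_smul, ← W.val_spec]

lemma val_zero : W.val (0 : 𝟙_ C ⟶ 𝟙_ C) = 0 := W.val_eq (by simp)

lemma val_id : W.val (𝟙 (𝟙_ C)) = 1 := W.val_eq (by simp)

lemma val_sub (f g : 𝟙_ C ⟶ 𝟙_ C) : W.val (f - g) = W.val f - W.val g := by
  rw [sub_eq_add_neg, ← neg_one_smul ℚ g, W.val_add, W.val_smul]
  ring

/-- iterates of the Frobenius -/
def Fp (X : C) (n : ℕ) : X ⟶ X := pw (W.F.app X) n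

lemma F_nat {X Y : C} (f : X ⟶ Y) : f ≫ W.F.app Y = W.F.app X ≫ f := W.F.naturality f

lemma Fp_nat {X Y : C} (f : X ⟶ Y) (n : ℕ) : f ≫ W.Fp Y n = W.Fp X n ≫ f := by
  induction n with
  | zero => simp [Fp, pw]
  | succ n ih =>
    have h1 : W.Fp Y (n + 1) = W.Fp Y n ≫ W.F.app Y := rfl
    have h2 : W.Fp X (n + 1) = W.Fp X n ≫ W.F.app X := rfl
    rw [h1, h2, ← Category.assoc, ih, Category.assoc, W.F_nat, Category.assoc]

lemma Fp_tensor (X Y : C) (n : ℕ) : W.Fp (X ⊗ Y) n = W.Fp X n ⊗ₘ W.Fp Y n := by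
  induction n with
  | zero => simp [Fp, pw]
  | succ n ih =>
    have h1 : W.Fp (X ⊗ Y) (n + 1) = W.Fp (X ⊗ Y) n ≫ W.F.app (X ⊗ Y) := rfl
    have h2 : W.Fp X (n + 1) = W.Fp X n ≫ W.F.app X := rfl
    have h3 : W.Fp Y (n + 1) = W.Fp Y n ≫ W.F.app Y := rfl
    rw [h1, h2, h3, ih, W.F_tensor, MonoidalCategory.tensorHom_comp_tensorHom]

lemma Fp_of_one {X : C} (h : W.F.app X = 𝟙 X) (n : ℕ) : W.Fp X n = 𝟙 X := by
  induction n with
  | zero => rfl
  | succ n ih =>
    have h2 : W.Fp X (n + 1) = W.Fp X n ≫ W.F.app X := rfl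
    rw [h2, ih, h]
    exact Category.comp_id _

/-- the traces of the Frobenius -/
def t (X : C) (n : ℕ) : ℚ := W.val (tr X (W.Fp X n))

lemma t_formula (X : C) (n : ℕ) :
    (W.t X n : ℂ) = ((W.α X).map (fun z => z ^ n)).sum - ((W.β X).map (fun z => z ^ n)).sum :=
  W.trace X n _ (W.val_spec _)

lemma t_retract {X Y : C} (i : Y ⟶ X) (p : X ⟶ Y) (h : i ≫ p = 𝟙 Y) (n : ℕ) :
    W.t Y n = W.val (tr X ((p ≫ i) ≫ W.Fp X n)) := by
  have h5 : W.Fp Y n = i ≫ (p ≫ W.Fp Y n) := by rw [← Category.assoc, h, Category.id_comp]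
  have h6 : (p ≫ W.Fp Y n) ≫ i = (p ≫ i) ≫ W.Fp X n := by
    rw [Category.assoc, ← W.Fp_nat, ← Category.assoc]
  unfold t
  rw [h5, tr_comm, h6]

lemma t_split {X Y Z : C} (i : Y ⟶ X) (p : X ⟶ Y) (h : i ≫ p = 𝟙 Y) (j : Z ⟶ X) (q : X ⟶ Z)
    (h' : j ≫ q = 𝟙 Z) (hs : p ≫ i + q ≫ j = 𝟙 X) (n : ℕ) : W.t X n = W.t Y n + W.t Z n := by
  rw [W.t_retract i p h, W.t_retract j q h', ← W.val_add, ← tr_add, ← Preadditive.add_comp, hs,
    Category.id_comp]
  rfl

lemma tr_tensor (X Y : C) (f : X ⟶ X) (g : Y ⟶ Y) :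
    tr (X ⊗ Y) (f ⊗ₘ g) = W.val (tr Y g) • tr X f := by
  unfold tr
  rw [trP_indep (X' := (X ⊗ Y)ᘁ) (X'' := Yᘁ ⊗ Xᘁ)]
  exact trP_tensor f g _ (W.val_spec _)

lemma t_tensor (X Y : C) (n : ℕ) : W.t (X ⊗ Y) n = W.t X n * W.t Y n := by
  unfold t
  rw [W.Fp_tensor, W.tr_tensor, W.val_smul, mul_comm]

lemma tr_unit : tr (𝟙_ C) (𝟙 (𝟙_ C)) = 𝟙 (𝟙_ C) := by
  unfold tr
  rw [trP_indep (X'' := 𝟙_ C)]
  unfold trP ev
  have h1 : η_ (𝟙_ C) (𝟙_ C) = (ρ_ (𝟙_ C)).inv := rfl
  have h2 : ε_ (𝟙_ C) (𝟙_ C) = (ρ_ (𝟙_ C)).hom := rfl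
  rw [h1, h2, braiding_tensorUnit_right, unitors_inv_equal]
  simp

lemma t_unit (n : ℕ) : W.t (𝟙_ C) n = 1 := by
  unfold t
  rw [W.Fp_of_one W.F_unit, tr_unit, W.val_id]

/-- the multiplicity of the even eigenvalue 1 -/
def mult (X : C) : ℕ := (W.α X).count 1

lemma mult_eq (X : C) (P : Polynomial ℂ) (h1 : P.eval 1 = 1)
    (hα : ∀ z ∈ W.α X, z ≠ 1 → P.eval z = 0) (hβ : ∀ z ∈ W.β X, z ≠ 1 → P.eval z = 0) :
    ∑ k ∈ P.support, P.coeff k * (W.t X k : ℂ) = W.mult X := by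
  have h2 := sum_count P h1 (W.α X) hα
  have h3 := sum_count P h1 (W.β X) hβ
  rw [sum_eval] at h2 h3
  have h4 : (W.β X).count 1 = 0 := Multiset.count_eq_zero.mpr (W.odd X)
  rw [h4, Nat.cast_zero] at h3
  have h5 : ∀ k ∈ P.support, P.coeff k * (W.t X k : ℂ) =
      P.coeff k * ((W.α X).map (fun z => z ^ k)).sum -
        P.coeff k * ((W.β X).map (fun z => z ^ k)).sum := by
    intro k _
    rw [W.t_formula, mul_sub]
  rw [Finset.sum_congr rfl h5, Finset.sum_sub_distrib, h2, h3, sub_zero]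
  rfl

/-- additivity of the multiplicity -/
lemma mult_add {X Y Z : C} (h : ∀ n, W.t X n = W.t Y n + W.t Z n) :
    W.mult X = W.mult Y + W.mult Z := by
  classical
  obtain ⟨P, h1, hP⟩ := exP ((W.α X + W.β X + (W.α Y + W.β Y) + (W.α Z + W.β Z)).toFinset)
  have e1 := W.mult_eq X P h1 (fun z hz => hP z (by simp [hz])) (fun z hz => hP z (by simp [hz]))
  have e2 := W.mult_eq Y P h1 (fun z hz => hP z (by simp [hz])) (fun z hz => hP z (by simp [hz]))
  have e3 := W.mult_eq Z P h1 (fun z hz => hP z (by simp [hz])) (fun z hz => hP z (by simp [hz]))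
  have h2 : (W.mult X : ℂ) = W.mult Y + W.mult Z := by
    rw [← e1, ← e2, ← e3, ← Finset.sum_add_distrib]
    apply Finset.sum_congr rfl
    intro k _
    rw [h]
    push_cast
    ring
  exact_mod_cast h2

lemma mult_of_const {X : C} (h : ∀ n, W.t X n = W.t X 0) : (W.mult X : ℚ) = W.t X 0 := by
  classical
  obtain ⟨P, h1, hP⟩ := exP ((W.α X + W.β X).toFinset)
  have e1 := W.mult_eq X P h1 (fun z hz => hP z (by simp [hz])) (fun z hz => hP z (by simp [hz]))
  have h2 : (W.mult X : ℂ) = ((W.t X 0 : ℚ) : ℂ) := by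
    rw [← e1]
    have h3 : ∀ k ∈ P.support, P.coeff k * (W.t X k : ℂ) = P.coeff k * 1 ^ k * (W.t X 0 : ℂ) := by
      intro k _
      rw [h k]
      simp
    rw [Finset.sum_congr rfl h3, ← Finset.sum_mul]
    have h4 : ∑ k ∈ P.support, P.coeff k * 1 ^ k = P.eval 1 := by
      rw [Polynomial.eval_eq_sum, Polynomial.sum]
    rw [h4, h1, one_mul]
  have h5 : (((W.mult X : ℚ)) : ℂ) = ((W.t X 0 : ℚ) : ℂ) := by
    rw [← h2]
    push_cast
    rfl
  exact_mod_cast h5

lemma mult_unit : W.mult (𝟙_ C) = 1 := by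
  have h := W.mult_of_const (X := 𝟙_ C) (fun n => by rw [W.t_unit, W.t_unit])
  rw [W.t_unit] at h
  exact_mod_cast h

lemma mult_of_zero {X : C} (h : ∀ n, W.t X n = 0) : W.mult X = 0 := by
  have h1 := W.mult_of_const (X := X) (fun n => by rw [h n, h 0])
  rw [h 0] at h1
  exact_mod_cast h1

include W in
lemma tr_self (s : 𝟙_ C ⟶ 𝟙_ C) : tr (𝟙_ C) s = s := by
  rw [W.val_spec s, tr_smul, tr_unit]

section Split

variable [IsIdempotentComplete C]

/-- the sections of X are finite-dimensional, of dimension at most the multiplicity of 1 -/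
lemma rank_aux (n : ℕ) : ∀ X : C, W.mult X = n → Module.rank ℚ (𝟙_ C ⟶ X) ≤ n := by
  induction n with
  | zero =>
    intro X hm
    have h : Subsingleton (𝟙_ C ⟶ X) := by
      constructor
      have key : ∀ f : 𝟙_ C ⟶ X, f = 0 := by
        intro f
        apply W.nd
        intro g
        by_contra hfg
        have h1 := W.val_spec (f ≫ g)
        have h2 : W.val (f ≫ g) ≠ 0 := by
          intro h3
          rw [h3, zero_smul] at h1
          exact hfg h1
        set g' : X ⟶ 𝟙_ C := (W.val (f ≫ g))⁻¹ • g with hg'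
        have h3 : f ≫ g' = 𝟙 _ := by
          rw [hg', Linear.comp_smul, h1, W.val_smul, W.val_id, mul_one, smul_smul,
            inv_mul_cancel₀ h2, one_smul]
        have h4 : (𝟙 X - g' ≫ f) ≫ (𝟙 X - g' ≫ f) = 𝟙 X - g' ≫ f := by
          rw [Preadditive.sub_comp, Preadditive.comp_sub, Preadditive.comp_sub, Category.id_comp,
            Category.comp_id, Category.id_comp, Category.assoc, ← Category.assoc f g', h3,
            Category.id_comp]
          abel
        obtain ⟨Y, i, p, h5, h6⟩ := IsIdempotentComplete.idempotents_split X _ h4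
        have h7 := W.mult_add (W.t_split f g' h3 i p h5 (by rw [h6]; abel))
        rw [W.mult_unit, hm] at h7
        omega
      intro a b
      rw [key a, key b]
    rw [rank_subsingleton']
    simp
  | succ n ih =>
    intro X hm
    by_cases hex : ∃ f : 𝟙_ C ⟶ X, f ≠ 0
    · obtain ⟨f, hf⟩ := hex
      have hex' : ∃ g : X ⟶ 𝟙_ C, f ≫ g ≠ 0 := by
        by_contra hcon
        push Not at hcon
        exact hf (W.nd X f hcon)
      obtain ⟨g, hfg⟩ := hex'
      have h1 := W.val_spec (f ≫ g)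
      have h2 : W.val (f ≫ g) ≠ 0 := by
        intro h3
        rw [h3, zero_smul] at h1
        exact hfg h1
      set g' : X ⟶ 𝟙_ C := (W.val (f ≫ g))⁻¹ • g with hg'
      have h3 : f ≫ g' = 𝟙 _ := by
        rw [hg', Linear.comp_smul, h1, W.val_smul, W.val_id, mul_one, smul_smul,
          inv_mul_cancel₀ h2, one_smul]
      have h4 : (𝟙 X - g' ≫ f) ≫ (𝟙 X - g' ≫ f) = 𝟙 X - g' ≫ f := by
        rw [Preadditive.sub_comp, Preadditive.comp_sub, Preadditive.comp_sub, Category.id_comp,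
          Category.comp_id, Category.id_comp, Category.assoc, ← Category.assoc f g', h3,
          Category.id_comp]
        abel
      obtain ⟨Y, i, p, h5, h6⟩ := IsIdempotentComplete.idempotents_split X _ h4
      have h7 := W.mult_add (W.t_split f g' h3 i p h5 (by rw [h6]; abel))
      rw [W.mult_unit, hm] at h7
      have hr := ih Y (by omega)
      set φ : (𝟙_ C ⟶ X) →ₗ[ℚ] (𝟙_ C ⟶ Y) := Linear.rightComp ℚ (𝟙_ C) p with hφ
      rw [← LinearMap.rank_range_add_rank_ker φ]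
      have h8 : Module.rank ℚ (LinearMap.range φ) ≤ n := (Submodule.rank_le _).trans hr
      have h9 : LinearMap.ker φ ≤ Submodule.span ℚ {f} := by
        intro h hh
        rw [LinearMap.mem_ker] at hh
        have hh' : h ≫ p = 0 := hh
        have h10 : h = (h ≫ g') ≫ f := by
          have h11 : h = h ≫ (g' ≫ f + p ≫ i) := by
            rw [h6]
            have : g' ≫ f + (𝟙 X - g' ≫ f) = 𝟙 X := by abel
            rw [this, Category.comp_id]
          conv_lhs => rw [h11]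
          rw [Preadditive.comp_add, ← Category.assoc h p i, hh', Limits.zero_comp, add_zero,
            Category.assoc]
        rw [Submodule.mem_span_singleton]
        refine ⟨W.val (h ≫ g'), ?_⟩
        conv_rhs => rw [h10, W.val_spec (h ≫ g')]
        rw [Linear.smul_comp, Category.id_comp]
      have h10 : Module.rank ℚ (LinearMap.ker φ) ≤ 1 := by
        refine (Submodule.rank_mono h9).trans ?_
        refine (rank_span_le _).trans ?_
        simp
      push_cast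
      exact add_le_add h8 h10
    · push Not at hex
      have h : Subsingleton (𝟙_ C ⟶ X) := ⟨fun a b => by rw [hex a, hex b]⟩
      rw [rank_subsingleton']
      simp

theorem rank_le (X : C) : Module.rank ℚ (𝟙_ C ⟶ X) ≤ W.mult X := W.rank_aux _ X rfl

end Split

end Frob

end

end MotP
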