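import Pool.Agent.MotP.Van

/-!
# The decomposition into an even and an odd part without the assumption abelian (MP_6c4da4_ag)

Copies of lemmas of helper97 (`Pool.Agent.Mot`), for categories which are not assumed to be abelian.
-/

open CategoryTheory MonoidalCategory BraidedCategory Limits Polynomial

universe v u

namespace MotP

open Mot

noncomputable section

set_option linter.unusedSectionVars false

variable {C : Type u} [Category.{v} C] [Preadditive C] [Linear ℚ C] [MonoidalCategory C]
  [SymmetricCategory C] [MonoidalPreadditive C] [MonoidalLinear ℚ C] [RightRigidCategory C]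

namespace Frob

variable (W : Frob C) [IsIdempotentComplete C]

/-- the Frobenius as an element of the endomorphism algebra -/
def FE (X : C) : End X := W.F.app X

lemma FE_pow (X : C) (n : ℕ) : (W.FE X) ^ n = (W.Fp X n : End X) := end_pow _ n

/-- the set of eigenvalues -/
def S (X : C) : Finset ℂ := (W.α X + W.β X).toFinset

/-- net multiplicities -/
def ν (X : C) (z : ℂ) : ℤ := nu (W.α X) (W.β X) z

lemma tr_poly (X : C) (g : ℚ[X]) :
    (W.val (tr X (aeval (W.FE X) g : End X)) : ℂ) = ∑ z ∈ W.S X, (W.ν X z : ℂ) * aeval z g := by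
  induction g using Polynomial.induction_on' with
  | add p q hp hq =>
    rw [map_add]
    have h1 : tr X ((aeval (W.FE X) p + aeval (W.FE X) q : End X)) =
        tr X (aeval (W.FE X) p : End X) + tr X (aeval (W.FE X) q : End X) := tr_add _ _
    rw [h1, W.val_add]
    push_cast
    rw [hp, hq, ← Finset.sum_add_distrib]
    apply Finset.sum_congr rfl
    intro z _
    rw [map_add]
    ring
  | monomial n a =>
    rw [aeval_monomial, FE_pow, ← Algebra.smul_def]
    have h1 : tr X ((a • (W.Fp X n : End X) : End X)) = a • tr X (W.Fp X n) := tr_smul _ _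
    rw [h1, W.val_smul]
    push_cast
    have h2 := W.t_formula X n
    unfold t at h2
    rw [h2, sum_nu, Finset.mul_sum]
    apply Finset.sum_congr rfl
    intro z _
    rw [aeval_monomial]
    unfold ν
    change _ = _ * ((algebraMap ℚ ℂ a) * z ^ n)
    simp
    ring

lemma ν_of_notMem {X : C} {z : ℂ} (h : z ∉ W.S X) : W.ν X z = 0 := nu_of_notMem h

lemma mem_of_ν {X : C} {z : ℂ} (h : W.ν X z ≠ 0) : z ∈ W.S X := by
  by_contra h1
  exact h (W.ν_of_notMem h1)

lemma ν_integral {X : C} {z : ℂ} (h : W.ν X z ≠ 0) : IsIntegral ℚ z := by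
  have hfin : Module.Finite ℚ (End X) := W.finite_hom X X
  have hint : IsIntegral ℚ (W.FE X) := IsIntegral.of_finite ℚ _
  set g := minpoly ℚ (W.FE X) with hg
  have hg0 : g ≠ 0 := minpoly.ne_zero hint
  have h1 : ∀ n : ℕ, ∑ z ∈ W.S X, ((W.ν X z : ℂ) * aeval z g) * z ^ n = 0 := by
    intro n
    have h2 := W.tr_poly X (g * Polynomial.X ^ n)
    have h3 : aeval (W.FE X) (g * Polynomial.X ^ n) = 0 := by
      rw [map_mul, hg, minpoly.aeval, zero_mul]
    rw [h3] at h2
    have h4 : tr X ((0 : End X) : X ⟶ X) = 0 := tr_zero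
    rw [h4, W.val_zero] at h2
    rw [Rat.cast_zero] at h2
    rw [h2]
    apply Finset.sum_congr rfl
    intro z _
    rw [map_mul, map_pow, aeval_X]
    ring
  have h2 := lag (W.S X) _ h1 z (W.mem_of_ν h)
  have h3 : aeval z g = 0 := by
    rcases mul_eq_zero.mp h2 with h4 | h4
    · exfalso
      apply h
      exact_mod_cast h4
    · exact h4
  exact (isAlgebraic_iff_isIntegral.mp ⟨g, hg0, h3⟩)

lemma ν_galois {X : C} {z w : ℂ} (hz : W.ν X z ≠ 0) (hw : aeval w (minpoly ℚ z) = 0) :
    W.ν X w = W.ν X z :=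
  galois (W.α X) (W.β X) (fun g => ⟨_, W.tr_poly X g⟩) (fun _ h => W.ν_integral h) z w hz hw

/-- the decomposition of an object into its even part and its odd part -/
theorem decomp (X : C) : ∃ (A B : C) (iA : A ⟶ X) (pA : X ⟶ A) (iB : B ⟶ X) (pB : X ⟶ B),
    iA ≫ pA = 𝟙 A ∧ iB ≫ pB = 𝟙 B ∧ pA ≫ iA + pB ≫ iB = 𝟙 X ∧ (∀ f : A ⟶ B, f = 0) ∧
    (∀ f : B ⟶ A, f = 0) ∧
    (∀ n, (W.t A n : ℂ) = ((W.α X - W.β X).map (fun z => z ^ n)).sum) ∧
    (∀ n, (W.t B n : ℂ) = -((W.β X - W.α X).map (fun z => z ^ n)).sum) := by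
  classical
  have hfin : Module.Finite ℚ (End X) := W.finite_hom X X
  set Sp := (W.S X).filter (fun z => 0 < W.ν X z) with hSp
  set Sm := (W.S X).filter (fun z => W.ν X z < 0) with hSm
  set gp : ℚ[X] := ∏ z ∈ Sp, minpoly ℚ z with hgp
  set gm : ℚ[X] := ∏ z ∈ Sm, minpoly ℚ z with hgm
  have hgp0 : ∀ z ∈ Sp, aeval z gp = 0 := by
    intro z hz
    rw [hgp, map_prod]
    exact Finset.prod_eq_zero hz (minpoly.aeval ℚ z)
  have hgm0 : ∀ z ∈ Sm, aeval z gm = 0 := by
    intro z hz
    rw [hgm, map_prod]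
    exact Finset.prod_eq_zero hz (minpoly.aeval ℚ z)
  have hcop : IsCoprime gp gm := by
    apply IsCoprime.prod_left
    intro z hz
    apply IsCoprime.prod_right
    intro w hw
    rw [hSp, Finset.mem_filter] at hz
    rw [hSm, Finset.mem_filter] at hw
    have hzi := W.ν_integral (X := X) (z := z) (by omega)
    have hwi := W.ν_integral (X := X) (z := w) (by omega)
    have h1 := minpoly.irreducible hzi
    have h2 := minpoly.irreducible hwi
    rw [h1.coprime_iff_not_dvd]
    intro hd
    have h3 : minpoly ℚ w ∣ minpoly ℚ z := h1.dvd_symm h2 hd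
    have h4 : aeval w (minpoly ℚ z) = 0 := by
      obtain ⟨q, hq⟩ := h3
      rw [hq, map_mul, minpoly.aeval, zero_mul]
    have h5 := W.ν_galois (X := X) (z := z) (w := w) (by omega) h4
    omega
  -- nilpotence
  have hnil : IsNilpotent (aeval (W.FE X) (gp * gm)) := by
    by_contra hn
    obtain ⟨g, hg1, hg2⟩ := exIdem' _ hn
    apply hg2
    have h1 : aeval (W.FE X) (gp * gm) * aeval (aeval (W.FE X) (gp * gm)) g =
        aeval (W.FE X) ((gp * gm) * g.comp (gp * gm)) := by
      rw [map_mul (aeval (W.FE X)) (gp * gm) (g.comp (gp * gm)), aeval_comp]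
    rw [h1] at hg1 ⊢
    apply W.idem_zero _ hg1
    intro m
    have h2 : (aeval (W.FE X) ((gp * gm) * g.comp (gp * gm)) : End X) ≫ W.Fp X m =
        (aeval (W.FE X) (Polynomial.X ^ m * ((gp * gm) * g.comp (gp * gm))) : End X) := by
      rw [map_mul _ (Polynomial.X ^ m), map_pow, aeval_X, FE_pow]
      rfl
    have h3 := W.tr_poly X (Polynomial.X ^ m * ((gp * gm) * g.comp (gp * gm)))
    have h4 : ∑ z ∈ W.S X, (W.ν X z : ℂ) * aeval z (Polynomial.X ^ m * ((gp * gm) * g.comp (gp * gm))) = 0 := by
      apply Finset.sum_eq_zero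
      intro z hz
      rcases lt_trichotomy (W.ν X z) 0 with h5 | h5 | h5
      · have h6 : aeval z gm = 0 := hgm0 z (Finset.mem_filter.mpr ⟨hz, h5⟩)
        rw [map_mul, map_mul, map_mul, h6]
        ring
      · rw [h5]
        simp
      · have h6 : aeval z gp = 0 := hgp0 z (Finset.mem_filter.mpr ⟨hz, h5⟩)
        rw [map_mul, map_mul, map_mul, h6]
        ring
    rw [h4] at h3
    have h5 : W.val (tr X (aeval (W.FE X) (Polynomial.X ^ m * ((gp * gm) * g.comp (gp * gm))) : End X)) = 0 := by
      exact_mod_cast h3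
    rw [← h5]
    exact congrArg (fun f => W.val (tr X f)) h2
  obtain ⟨K, hK⟩ := hnil
  have hK1 : aeval (W.FE X) (gp ^ (K + 1) * gm ^ (K + 1)) = 0 := by
    rw [← mul_pow, map_pow, pow_succ, hK, zero_mul]
  obtain ⟨c, d, hcd⟩ := (hcop.pow : IsCoprime (gp ^ (K + 1)) (gm ^ (K + 1)))
  set ep : End X := aeval (W.FE X) (d * gm ^ (K + 1)) with hep
  set em : End X := aeval (W.FE X) (c * gp ^ (K + 1)) with hem
  have hsum : em + ep = 1 := by
    rw [hep, hem, ← map_add, hcd, map_one]
  have hmp : em * ep = 0 := by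
    rw [hep, hem, ← map_mul]
    have h1 : c * gp ^ (K + 1) * (d * gm ^ (K + 1)) = c * d * (gp ^ (K + 1) * gm ^ (K + 1)) := by
      ring
    rw [h1, map_mul, hK1, mul_zero]
  have hpm : ep * em = 0 := by
    rw [hep, hem, ← map_mul]
    have h1 : d * gm ^ (K + 1) * (c * gp ^ (K + 1)) = c * d * (gp ^ (K + 1) * gm ^ (K + 1)) := by
      ring
    rw [h1, map_mul, hK1, mul_zero]
  have hep2 : ep * ep = ep := by
    have h1 : (em + ep) * ep = ep := by rw [hsum, one_mul]
    rw [add_mul, hmp, zero_add] at h1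
    exact h1
  have hem2 : em * em = em := by
    have h1 : (em + ep) * em = em := by rw [hsum, one_mul]
    rw [add_mul, hpm, add_zero] at h1
    exact h1
  obtain ⟨A, iA, pA, hA1, hA2⟩ := IsIdempotentComplete.idempotents_split X ep hep2
  obtain ⟨B, iB, pB, hB1, hB2⟩ := IsIdempotentComplete.idempotents_split X em hem2
  have ht : ∀ (Y : C) (i : Y ⟶ X) (p : X ⟶ Y) (g : ℚ[X]), i ≫ p = 𝟙 Y →
      p ≫ i = (aeval (W.FE X) g : End X) → ∀ n,
      (W.t Y n : ℂ) = ∑ z ∈ W.S X, (W.ν X z : ℂ) * aeval z (Polynomial.X ^ n * g) := by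
    intro Y i p g h1 h2 n
    have h5 : W.Fp Y n = i ≫ (p ≫ W.Fp Y n) := by rw [← Category.assoc, h1, Category.id_comp]
    have h6 : (p ≫ W.Fp Y n) ≫ i = (aeval (W.FE X) (Polynomial.X ^ n * g) : End X) := by
      rw [Category.assoc, ← W.Fp_nat, ← Category.assoc, h2, map_mul _ (Polynomial.X ^ n), map_pow, aeval_X,
        FE_pow]
      rfl
    unfold t
    rw [h5, tr_comm]
    refine Eq.trans ?_ (W.tr_poly X (Polynomial.X ^ n * g))
    exact congrArg (fun f => ((W.val (tr X f) : ℚ) : ℂ)) h6
  have hcen : ∀ (g : ℚ[X]) (f : End X), aeval (W.FE X) g * f = f * aeval (W.FE X) g := by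
    intro g f
    have h1 : Commute (W.FE X) f := W.F_nat f
    have h2 : Commute f (aeval (W.FE X) g) := by
      apply Polynomial.induction_on' (motive := fun g => Commute f (aeval (W.FE X) g))
      · intro p q hp hq
        rw [map_add]
        exact hp.add_right hq
      · intro n a
        rw [aeval_monomial, ← Algebra.smul_def]
        exact (h1.symm.pow_right n).smul_right a
    exact h2.symm.eq
  have hAB : ∀ f : A ⟶ B, f = 0 := by
    intro f
    obtain ⟨x, hx⟩ : ∃ x : End X, x = pA ≫ f ≫ iB := ⟨_, rfl⟩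
    have h1 : x * ep = x := by
      rw [hx]
      change ep ≫ (pA ≫ f ≫ iB) = pA ≫ f ≫ iB
      rw [← hA2, Category.assoc, ← Category.assoc iA, hA1, Category.id_comp]
    have h2 : ep * x = 0 := by
      have h3 : em * x = x := by
        rw [hx]
        change (pA ≫ f ≫ iB) ≫ em = pA ≫ f ≫ iB
        rw [← hB2, Category.assoc, Category.assoc, ← Category.assoc iB, hB1, Category.id_comp]
      rw [← h3, ← mul_assoc, hpm, zero_mul]
    have h3 : x = 0 := by
      rw [← h1, ← hcen, h2]
    have h4 : f = iA ≫ (pA ≫ f ≫ iB) ≫ pB := by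
      rw [Category.assoc, Category.assoc, hB1, Category.comp_id, ← Category.assoc, hA1,
        Category.id_comp]
    have h5 : pA ≫ f ≫ iB = 0 := hx.symm.trans h3
    rw [h4, h5, Limits.zero_comp, Limits.comp_zero]
  have hBA : ∀ f : B ⟶ A, f = 0 := by
    intro f
    obtain ⟨x, hx⟩ : ∃ x : End X, x = pB ≫ f ≫ iA := ⟨_, rfl⟩
    have h1 : x * em = x := by
      rw [hx]
      change em ≫ (pB ≫ f ≫ iA) = pB ≫ f ≫ iA
      rw [← hB2, Category.assoc, ← Category.assoc iB, hB1, Category.id_comp]
    have h2 : em * x = 0 := by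
      have h3 : ep * x = x := by
        rw [hx]
        change (pB ≫ f ≫ iA) ≫ ep = pB ≫ f ≫ iA
        rw [← hA2, Category.assoc, Category.assoc, ← Category.assoc iA, hA1, Category.id_comp]
      rw [← h3, ← mul_assoc, hmp, zero_mul]
    have h3 : x = 0 := by
      rw [← h1, ← hcen, h2]
    have h4 : f = iB ≫ (pB ≫ f ≫ iA) ≫ pA := by
      rw [Category.assoc, Category.assoc, hA1, Category.comp_id, ← Category.assoc, hB1,
        Category.id_comp]
    have h5 : pB ≫ f ≫ iA = 0 := hx.symm.trans h3
    rw [h4, h5, Limits.zero_comp, Limits.comp_zero]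
  refine ⟨A, B, iA, pA, iB, pB, hA1, hB1, ?_, hAB, hBA, ?_, ?_⟩
  · rw [hA2, hB2]
    have h1 : ep + em = 1 := by rw [add_comm, hsum]
    exact h1
  · intro n
    rw [ht A iA pA _ hA1 hA2 n]
    have h0 : ((W.α X - W.β X).map (fun z => z ^ n)).sum =
        ∑ z ∈ W.S X, ((W.α X - W.β X).count z : ℂ) * z ^ n := by
      have h1 := sum_nu (W.α X - W.β X) 0 (fun z => z ^ n)
      rw [Multiset.map_zero, Multiset.sum_zero, sub_zero, add_zero] at h1
      rw [h1]
      have h2 : ∀ z, (nu (W.α X - W.β X) 0 z : ℂ) = ((W.α X - W.β X).count z : ℂ) := by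
        intro z
        unfold nu
        simp
      rw [Finset.sum_congr rfl (fun z _ => by rw [h2 z])]
      apply Finset.sum_subset
      · intro z hz
        rw [Multiset.mem_toFinset] at hz
        unfold S
        rw [Multiset.mem_toFinset, Multiset.mem_add]
        exact Or.inl (Multiset.mem_of_le (Multiset.sub_le_self _ _) hz)
      · intro z _ hz
        rw [Multiset.mem_toFinset] at hz
        rw [Multiset.count_eq_zero.mpr hz]
        simp
    rw [h0]
    apply Finset.sum_congr rfl
    intro z hz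
    rw [Multiset.count_sub, map_mul, map_pow, aeval_X]
    rcases lt_trichotomy (W.ν X z) 0 with h5 | h5 | h5
    · have h6 : aeval z gm = 0 := hgm0 z (Finset.mem_filter.mpr ⟨hz, h5⟩)
      have h7 : (W.α X).count z - (W.β X).count z = 0 := by
        unfold ν nu at h5
        omega
      rw [h7, map_mul, map_pow, h6, zero_pow (Nat.succ_ne_zero K)]
      simp
    · have h7 : (W.α X).count z - (W.β X).count z = 0 := by
        unfold ν nu at h5
        omega
      rw [h7, h5]
      simp
    · have h6 : aeval z gp = 0 := hgp0 z (Finset.mem_filter.mpr ⟨hz, h5⟩)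
      have h7 := congrArg (aeval z) hcd
      rw [map_add, map_mul, map_pow, h6, zero_pow (Nat.succ_ne_zero K), mul_zero, zero_add,
        map_one] at h7
      rw [h7]
      have h8 : (W.ν X z : ℂ) = (((W.α X).count z - (W.β X).count z : ℕ) : ℂ) := by
        have h9 : W.ν X z = (((W.α X).count z - (W.β X).count z : ℕ) : ℤ) := by
          unfold ν nu at h5 ⊢
          omega
        rw [h9]
        simp
      rw [h8]
      ring
  · intro n
    rw [ht B iB pB _ hB1 hB2 n]
    have h0 : ((W.β X - W.α X).map (fun z => z ^ n)).sum =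
        ∑ z ∈ W.S X, ((W.β X - W.α X).count z : ℂ) * z ^ n := by
      have h1 := sum_nu (W.β X - W.α X) 0 (fun z => z ^ n)
      rw [Multiset.map_zero, Multiset.sum_zero, sub_zero, add_zero] at h1
      rw [h1]
      have h2 : ∀ z, (nu (W.β X - W.α X) 0 z : ℂ) = ((W.β X - W.α X).count z : ℂ) := by
        intro z
        unfold nu
        simp
      rw [Finset.sum_congr rfl (fun z _ => by rw [h2 z])]
      apply Finset.sum_subset
      · intro z hz
        rw [Multiset.mem_toFinset] at hz
        unfold S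
        rw [Multiset.mem_toFinset, Multiset.mem_add]
        exact Or.inr (Multiset.mem_of_le (Multiset.sub_le_self _ _) hz)
      · intro z _ hz
        rw [Multiset.mem_toFinset] at hz
        rw [Multiset.count_eq_zero.mpr hz]
        simp
    rw [h0, ← Finset.sum_neg_distrib]
    apply Finset.sum_congr rfl
    intro z hz
    rw [Multiset.count_sub, map_mul, map_pow, aeval_X]
    rcases lt_trichotomy (W.ν X z) 0 with h5 | h5 | h5
    · have h6 : aeval z gm = 0 := hgm0 z (Finset.mem_filter.mpr ⟨hz, h5⟩)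
      have h7 := congrArg (aeval z) hcd
      rw [map_add, map_mul _ d, map_pow, h6, zero_pow (Nat.succ_ne_zero K), mul_zero, add_zero,
        map_one] at h7
      rw [h7]
      have h8 : (W.ν X z : ℂ) = -(((W.β X).count z - (W.α X).count z : ℕ) : ℂ) := by
        have h9 : W.ν X z = -(((W.β X).count z - (W.α X).count z : ℕ) : ℤ) := by
          unfold ν nu at h5 ⊢
          omega
        rw [h9]
        simp
      rw [h8]
      ring
    · have h7 : (W.β X).count z - (W.α X).count z = 0 := by
        unfold ν nu at h5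
        omega
      rw [h7, h5]
      simp
    · have h6 : aeval z gp = 0 := hgp0 z (Finset.mem_filter.mpr ⟨hz, h5⟩)
      have h7 : (W.β X).count z - (W.α X).count z = 0 := by
        unfold ν nu at h5
        omega
      rw [h7, map_mul, map_pow, h6, zero_pow (Nat.succ_ne_zero K)]
      simp

end Frob

end

end MotP
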