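import Pool.Agent.MotP.Kim

/-!
# Nilpotent endomorphisms have trace zero (MP_6c4da4_ag, by helper8)

In a pseudo-abelian rigid tensor category with a Frobenius structure and without numerically trivial
morphisms.  The exterior power of high order of an object without odd eigenvalues vanishes, and the
trace of the `n`-th exterior power of `f` is `tr f ^ n / n!` when `tr (f ^ k) = 0` for `2 ≤ k`.
-/

open CategoryTheory MonoidalCategory BraidedCategory Limits Polynomial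

universe v u

namespace MotP

open Mot

noncomputable section

set_option linter.unusedSectionVars false

variable {C : Type u} [Category.{v} C] [Preadditive C] [Linear ℚ C] [MonoidalCategory C]
  [SymmetricCategory C] [MonoidalPreadditive C] [MonoidalLinear ℚ C] [RightRigidCategory C]

/-- the tensor powers of an endomorphism -/
def tp {X : C} (f : X ⟶ X) : ∀ n, T X n ⟶ T X n
  | 0 => 𝟙 _
  | n + 1 => (tp f n ⊗ₘ f : T X n ⊗ X ⟶ T X n ⊗ X)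

lemma stp_comm (ε N : ℚ) (P X : C) (A : P ⊗ X ⟶ P ⊗ X) (φ : P ⟶ P) (f : X ⟶ X)
    (h : A ≫ (φ ⊗ₘ f) = (φ ⊗ₘ f) ≫ A) :
    stp ε N P X A ≫ ((φ ⊗ₘ f) ⊗ₘ f) = ((φ ⊗ₘ f) ⊗ₘ f) ≫ stp ε N P X A := by
  have h1 : A ▷ X ≫ ((φ ⊗ₘ f) ⊗ₘ f) = ((φ ⊗ₘ f) ⊗ₘ f) ≫ A ▷ X := by
    rw [← tensorHom_id, MonoidalCategory.tensorHom_comp_tensorHom,
      MonoidalCategory.tensorHom_comp_tensorHom, h, Category.id_comp, Category.comp_id]
  have h2 : (𝟙 ((P ⊗ X) ⊗ X) - N • (ε • sw P X)) ≫ ((φ ⊗ₘ f) ⊗ₘ f) =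
      ((φ ⊗ₘ f) ⊗ₘ f) ≫ (𝟙 ((P ⊗ X) ⊗ X) - N • (ε • sw P X)) := by
    rw [Preadditive.sub_comp, Preadditive.comp_sub, Category.id_comp, Category.comp_id,
      Linear.smul_comp, Linear.smul_comp, Linear.comp_smul, Linear.comp_smul, sw_nat']
  unfold stp
  rw [Linear.smul_comp, Linear.comp_smul, Category.assoc, Category.assoc, h1,
    ← Category.assoc _ _ (A ▷ X), h2, ← Category.assoc, ← Category.assoc, ← Category.assoc, h1]
  simp only [Category.assoc]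

lemma pj_comm (ε : ℚ) {X : C} (f : X ⟶ X) (n : ℕ) :
    pj ε X (n + 1) ≫ (tp f n ⊗ₘ f) = (tp f n ⊗ₘ f) ≫ pj ε X (n + 1) := by
  induction n with
  | zero =>
    have h : pj ε X (0 + 1) = 𝟙 (T X 0 ⊗ X) := rfl
    rw [h]
    exact (Category.id_comp _).trans (Category.comp_id _).symm
  | succ n ih =>
    exact stp_comm ε ((n : ℚ) + 1) (T X n) X (pj ε X (n + 1)) (tp f n) f ih

namespace Frob

variable (W : Frob C)

/-- the recursion for the traces of the projectors -/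
lemma step_tr' {ε N : ℚ} (hN : N + 1 ≠ 0) (P X : C) (A : P ⊗ X ⟶ P ⊗ X) (hA : A ≫ A = A)
    (φ : P ⟶ P) (f : X ⟶ X) (hAΦ : A ≫ (φ ⊗ₘ f) = (φ ⊗ₘ f) ≫ A) (k : ℕ) :
    (N + 1) * W.val (tr ((P ⊗ X) ⊗ X) (stp ε N P X A ≫ ((φ ⊗ₘ f) ⊗ₘ pw f k))) =
      W.val (tr (P ⊗ X) (A ≫ (φ ⊗ₘ f))) * W.val (tr X (pw f k)) -
        ε * (N * W.val (tr (P ⊗ X) (A ≫ (φ ⊗ₘ pw f (k + 1))))) := by
  obtain ⟨Φ, hΦ⟩ : ∃ Φ, Φ = φ ⊗ₘ f := ⟨_, rfl⟩
  obtain ⟨Ψ, hΨ⟩ : ∃ Ψ, Ψ = pw f k := ⟨_, rfl⟩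
  rw [← hΦ, ← hΨ]
  rw [← hΦ] at hAΦ
  have hU : (Φ ⊗ₘ Ψ) = Φ ▷ X ≫ (P ⊗ X) ◁ Ψ := tensorHom_def _ _
  have hU' : (Φ ⊗ₘ Ψ) = (P ⊗ X) ◁ Ψ ≫ Φ ▷ X := tensorHom_def' _ _
  have hAU : A ▷ X ≫ (Φ ⊗ₘ Ψ) = (Φ ⊗ₘ Ψ) ≫ A ▷ X := by
    rw [hU, ← Category.assoc, ← comp_whiskerRight, hAΦ, comp_whiskerRight, Category.assoc,
      ← whisker_exchange, Category.assoc]
  obtain ⟨M, hM⟩ : ∃ M : (P ⊗ X) ⊗ X ⟶ (P ⊗ X) ⊗ X, M = 𝟙 _ - N • (ε • sw P X) := ⟨_, rfl⟩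
  have e1 : tr _ (stp ε N P X A ≫ (Φ ⊗ₘ Ψ)) = (N + 1)⁻¹ • tr _ (A ▷ X ≫ M ≫ (Φ ⊗ₘ Ψ)) := by
    unfold stp
    rw [← hM, Linear.smul_comp, tr_smul, Category.assoc, Category.assoc, hAU, ← Category.assoc,
      ← Category.assoc, tr_comm, ← Category.assoc, ← Category.assoc, ← comp_whiskerRight, hA,
      Category.assoc]
  have e2 : tr _ (A ▷ X ≫ M ≫ (Φ ⊗ₘ Ψ)) =
      tr _ (A ▷ X ≫ (Φ ⊗ₘ Ψ)) - (N * ε) • tr _ (A ▷ X ≫ sw P X ≫ (Φ ⊗ₘ Ψ)) := by
    rw [hM, Preadditive.sub_comp, Category.id_comp, Preadditive.comp_sub, tr_sub, smul_smul,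
      Linear.smul_comp, Linear.comp_smul, tr_smul]
  have e3 : tr _ (A ▷ X ≫ (Φ ⊗ₘ Ψ)) = W.val (tr X Ψ) • tr (P ⊗ X) (A ≫ Φ) := by
    have e4 : A ▷ X ≫ (Φ ⊗ₘ Ψ) = (A ≫ Φ) ⊗ₘ Ψ := by
      rw [← tensorHom_id, MonoidalCategory.tensorHom_comp_tensorHom, Category.id_comp]
    rw [e4, W.tr_tensor]
  have e5 : tr _ (A ▷ X ≫ sw P X ≫ (Φ ⊗ₘ Ψ)) =
      tr (P ⊗ X) (A ≫ (φ ⊗ₘ pw f (k + 1))) := by
    have e6 : A ▷ X ≫ sw P X ≫ (Φ ⊗ₘ Ψ) = (A ▷ X ≫ sw P X ≫ (P ⊗ X) ◁ Ψ) ≫ Φ ▷ X := by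
      rw [hU', Category.assoc, Category.assoc]
    rw [e6, tr_comm, ← Category.assoc, ← comp_whiskerRight, tr_swap, ← hAΦ, Category.assoc]
    congr 2
    rw [hΦ, ← id_tensorHom, MonoidalCategory.tensorHom_comp_tensorHom, Category.comp_id, hΨ]
    congr 1
    rw [pw_comm]
    rfl
  rw [e1, e2, e3, e5, W.val_smul, W.val_sub, W.val_smul, W.val_smul]
  field_simp

/-- the traces of the projectors -/
def dd (ε : ℚ) {X : C} (f : X ⟶ X) (n k : ℕ) : ℚ :=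
  W.val (tr (T X n ⊗ X) (pj ε X (n + 1) ≫ (tp f n ⊗ₘ pw f k) : (T X n ⊗ X) ⟶ (T X n ⊗ X)))

lemma dd_zero (ε : ℚ) {X : C} (f : X ⟶ X) (k : ℕ) : W.dd ε f 0 k = W.val (tr X (pw f k)) := by
  unfold dd
  have h1 : (pj ε X (0 + 1) ≫ (tp f 0 ⊗ₘ pw f k) : (T X 0 ⊗ X) ⟶ (T X 0 ⊗ X)) =
      (𝟙 (𝟙_ C) ⊗ₘ pw f k) := Category.id_comp _
  rw [h1]
  have h3 := W.tr_tensor (𝟙_ C) X (𝟙 _) (pw f k)
  refine (congrArg W.val h3).trans ?_
  rw [W.val_smul, tr_unit, W.val_id, mul_one]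

lemma pw_one' {X : C} (f : X ⟶ X) : pw f 1 = f := Category.id_comp f

lemma dd_succ {ε : ℚ} (hε : ε * ε = 1) {X : C} (f : X ⟶ X) (n k : ℕ) :
    ((n : ℚ) + 2) * W.dd ε f (n + 1) k = W.dd ε f n 1 * W.val (tr X (pw f k)) -
      ε * (((n : ℚ) + 1) * W.dd ε f n (k + 1)) := by
  have h := W.step_tr' (ε := ε) (N := (n : ℚ) + 1) (by positivity) (T X n) X (pj ε X (n + 1))
    (pj_idem hε X (n + 1)) (tp f n) f (pj_comm ε f n) k
  have e : (n : ℚ) + 1 + 1 = (n : ℚ) + 2 := by ring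
  rw [e] at h
  have h1 : W.dd ε f n 1 = W.val (tr (T X n ⊗ X) (pj ε X (n + 1) ≫ (tp f n ⊗ₘ f) :
      (T X n ⊗ X) ⟶ (T X n ⊗ X))) := by
    unfold dd
    rw [pw_one']
  rw [h1]
  exact h

/-- if `tr (f ^ k) = 0` for `2 ≤ k` and a projector vanishes then `tr f = 0` -/
lemma tr_zero_of_pj {ε : ℚ} (hε : ε * ε = 1) {X : C} (f : X ⟶ X) (m : ℕ)
    (hm : pj ε X (m + 1) = 0) (h : ∀ k, 2 ≤ k → W.val (tr X (pw f k)) = 0) :
    W.val (tr X f) = 0 := by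
  have h1 : ∀ n, ∀ k, 2 ≤ k → W.dd ε f n k = 0 := by
    intro n
    induction n with
    | zero =>
      intro k hk
      rw [W.dd_zero, h k hk]
    | succ n ih =>
      intro k hk
      have h2 := W.dd_succ hε f n k
      rw [h k hk, ih (k + 1) (by omega)] at h2
      have h3 : ((n : ℚ) + 2) ≠ 0 := by positivity
      have h4 : ((n : ℚ) + 2) * W.dd ε f (n + 1) k = 0 := by rw [h2]; ring
      rcases mul_eq_zero.mp h4 with h5 | h5
      · exact absurd h5 h3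
      · exact h5
  have h2 : ∀ n, W.dd ε f n 1 * ((n + 1).factorial : ℚ) = W.val (tr X f) ^ (n + 1) := by
    intro n
    induction n with
    | zero =>
      rw [W.dd_zero, pw_one']
      simp
    | succ n ih =>
      have h3 := W.dd_succ hε f n 1
      rw [h1 n (1 + 1) (by omega), pw_one'] at h3
      have h4 : ((n : ℚ) + 2) * W.dd ε f (n + 1) 1 = W.dd ε f n 1 * W.val (tr X f) := by
        rw [h3]; ring
      rw [Nat.factorial_succ]
      push_cast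
      calc W.dd ε f (n + 1) 1 * (((n : ℚ) + 1 + 1) * ((n + 1).factorial : ℚ))
          = (((n : ℚ) + 2) * W.dd ε f (n + 1) 1) * ((n + 1).factorial : ℚ) := by ring
        _ = (W.dd ε f n 1 * ((n + 1).factorial : ℚ)) * W.val (tr X f) := by rw [h4]; ring
        _ = W.val (tr X f) ^ (n + 1 + 1) := by rw [ih]; ring
  have h3 : W.dd ε f m 1 = 0 := by
    unfold dd
    have h4 : (pj ε X (m + 1) ≫ (tp f m ⊗ₘ pw f 1) : (T X m ⊗ X) ⟶ (T X m ⊗ X)) = 0 := by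
      rw [hm]
      exact Limits.zero_comp
    rw [h4, tr_zero, W.val_zero]
  have h4 := h2 m
  rw [h3, zero_mul] at h4
  exact pow_eq_zero_iff (Nat.succ_ne_zero m) |>.mp h4.symm

lemma pw_pw {X : C} (f : X ⟶ X) (j k : ℕ) : pw (pw f j) k = pw f (j * k) := by
  induction k with
  | zero => rfl
  | succ k ih =>
    have h : pw (pw f j) (k + 1) = pw (pw f j) k ≫ pw f j := rfl
    rw [h, ih, Nat.mul_succ, pw_add]

/-- the powers of a nilpotent endomorphism have trace zero if a projector vanishes -/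
lemma tr_nil_of_pj {ε : ℚ} (hε : ε * ε = 1) {X : C} (f : X ⟶ X) (m : ℕ)
    (hm : pj ε X (m + 1) = 0) (K : ℕ) (hK : pw f K = 0) :
    W.val (tr X f) = 0 := by
  have key : ∀ j d : ℕ, 1 ≤ d → K ≤ d + j → W.val (tr X (pw f d)) = 0 := by
    intro j
    induction j using Nat.strong_induction_on with
    | _ j ih =>
      intro d hd hj
      apply W.tr_zero_of_pj hε (pw f d) m hm
      intro k hk
      rw [pw_pw]
      by_cases h : K ≤ d * k
      · have h1 : pw f (d * k) = 0 := by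
          obtain ⟨l, hl⟩ := Nat.exists_eq_add_of_le h
          rw [hl, pw_add, hK, Limits.zero_comp]
        rw [h1, tr_zero, W.val_zero]
      · have h2 : d * 2 ≤ d * k := Nat.mul_le_mul_left d hk
        exact ih (K - d * k) (by omega) (d * k) (by omega) (by omega)
  have h := key K 1 le_rfl (by omega)
  rwa [pw_one'] at h

section Split

variable [IsIdempotentComplete C]

include W in
/-- nilpotent endomorphisms have trace zero -/
theorem tr_nil {X : C} (f : X ⟶ X) (K : ℕ) (hK : pw f K = 0) : tr X f = 0 := by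
  obtain ⟨A, B, iA, pA, iB, pB, h1, h2, h3, h4, h5, h6, h7⟩ := W.decomp X
  have hA := W.pj_zero (ε := 1) (by norm_num) A (W.α X - W.β X)
    (fun n => by rw [h6 n]; simp) (Multiset.card (W.α X))
    (Multiset.card_le_card (Multiset.sub_le_self _ _))
  have hB := W.pj_zero (ε := -1) (by norm_num) B (W.β X - W.α X)
    (fun n => by rw [h7 n]; simp) (Multiset.card (W.β X))
    (Multiset.card_le_card (Multiset.sub_le_self _ _))
  have eA : iA ≫ f = (iA ≫ f ≫ pA) ≫ iA := by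
    calc iA ≫ f = (iA ≫ f) ≫ (pA ≫ iA + pB ≫ iB) := by rw [h3, Category.comp_id]
      _ = (iA ≫ f ≫ pA) ≫ iA + (iA ≫ f ≫ pB) ≫ iB := by
          rw [Preadditive.comp_add]
          simp only [Category.assoc]
      _ = _ := by rw [h4 (iA ≫ f ≫ pB), Limits.zero_comp, add_zero]
  have eB : iB ≫ f = (iB ≫ f ≫ pB) ≫ iB := by
    calc iB ≫ f = (iB ≫ f) ≫ (pA ≫ iA + pB ≫ iB) := by rw [h3, Category.comp_id]
      _ = (iB ≫ f ≫ pA) ≫ iA + (iB ≫ f ≫ pB) ≫ iB := by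
          rw [Preadditive.comp_add]
          simp only [Category.assoc]
      _ = _ := by rw [h5 (iB ≫ f ≫ pA), Limits.zero_comp, zero_add]
  have npow : ∀ (Y : C) (i : Y ⟶ X) (p : X ⟶ Y), i ≫ p = 𝟙 Y → i ≫ f = (i ≫ f ≫ p) ≫ i →
      pw (i ≫ f ≫ p) K = 0 := by
    intro Y i p hip hif
    have h8 : ∀ n, i ≫ pw f n = pw (i ≫ f ≫ p) n ≫ i := by
      intro n
      induction n with
      | zero => simp [pw]
      | succ n ih =>
        have e1 : pw f (n + 1) = pw f n ≫ f := rfl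
        have e2 : pw (i ≫ f ≫ p) (n + 1) = pw (i ≫ f ≫ p) n ≫ (i ≫ f ≫ p) := rfl
        rw [e1, e2, ← Category.assoc, ih, Category.assoc, hif]
        simp only [Category.assoc]
    have h9 := h8 K
    rw [hK, Limits.comp_zero] at h9
    calc pw (i ≫ f ≫ p) K = (pw (i ≫ f ≫ p) K ≫ i) ≫ p := by
          rw [Category.assoc, hip, Category.comp_id]
      _ = 0 := by rw [← h9, Limits.zero_comp]
  have tA := W.tr_nil_of_pj (ε := 1) (by norm_num) (iA ≫ f ≫ pA) _ hA K (npow A iA pA h1 eA)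
  have tB := W.tr_nil_of_pj (ε := -1) (by norm_num) (iB ≫ f ≫ pB) _ hB K (npow B iB pB h2 eB)
  have h8 : tr X f = tr A (iA ≫ f ≫ pA) + tr B (iB ≫ f ≫ pB) := by
    calc tr X f = tr X (f ≫ (pA ≫ iA + pB ≫ iB)) := by rw [h3, Category.comp_id]
      _ = tr X ((f ≫ pA) ≫ iA) + tr X ((f ≫ pB) ≫ iB) := by
          rw [Preadditive.comp_add, tr_add]
          simp only [Category.assoc]
      _ = _ := by rw [tr_comm, tr_comm (f ≫ pB) iB]
  rw [h8, W.val_spec (tr A (iA ≫ f ≫ pA)), W.val_spec (tr B (iB ≫ f ≫ pB)), tA, tB, zero_smul,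
    add_zero]

end Split

end Frob

end

end MotP
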