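import Pool.Agent.MotP.Base
import Pool.Agent.Mot.Kim

/-!
# Hom spaces, partial traces, projectors without the assumption abelian (MP_6c4da4_ag)

Copies of lemmas of helper97 (`Pool.Agent.Mot`), for categories which are not assumed to be abelian.
-/

open CategoryTheory MonoidalCategory BraidedCategory Limits Polynomial

universe v u

namespace MotP

open Mot

noncomputable section

set_option linter.unusedSectionVars false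

variable {C : Type u} [Category.{v} C] [Preadditive C] [Linear ℚ C] [MonoidalCategory C]
  [SymmetricCategory C] [MonoidalPreadditive C] [MonoidalLinear ℚ C] [RightRigidCategory C]

/-- the name of a morphism -/
def nm {X Y : C} (f : X ⟶ Y) : 𝟙_ C ⟶ Y ⊗ Xᘁ := η_ X Xᘁ ≫ f ▷ Xᘁ

lemma nm_back {X Y : C} (f : X ⟶ Y) :
    nm f ▷ X ≫ (α_ Y Xᘁ X).hom ≫ Y ◁ ε_ X Xᘁ ≫ (ρ_ Y).hom = (λ_ X).hom ≫ f := by
  unfold nm
  rw [comp_whiskerRight, Category.assoc, associator_naturality_left_assoc,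
    ← whisker_exchange_assoc, ExactPairing.evaluation_coevaluation_assoc]
  simp

lemma nm_inj {X Y : C} {f g : X ⟶ Y} (h : nm f = nm g) : f = g := by
  have h1 := nm_back f
  rw [h, nm_back g] at h1
  exact ((cancel_epi _).mp h1).symm

/-- the name as a linear map -/
def nmL (X Y : C) : (X ⟶ Y) →ₗ[ℚ] (𝟙_ C ⟶ Y ⊗ Xᘁ) where
  toFun := nm
  map_add' f g := by
    unfold nm
    rw [MonoidalPreadditive.add_whiskerRight, Preadditive.comp_add]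
  map_smul' r f := by
    unfold nm
    rw [MonoidalLinear.smul_whiskerRight, Linear.comp_smul]
    rfl

lemma nm_comp {X Y Z : C} (f : X ⟶ Y) (g : Y ⟶ Z) : nm (f ≫ g) = nm f ≫ g ▷ Xᘁ := by
  unfold nm
  rw [comp_whiskerRight, Category.assoc]

/-- every morphism from the unit is a name -/
lemma nm_surj {X Y : C} (s : 𝟙_ C ⟶ Y ⊗ Xᘁ) : ∃ f : X ⟶ Y, nm f = s := by
  refine ⟨(λ_ X).inv ≫ s ▷ X ≫ (α_ Y Xᘁ X).hom ≫ Y ◁ ε_ X Xᘁ ≫ (ρ_ Y).hom, ?_⟩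
  have h := (tensorRightHomEquiv (𝟙_ C) X Xᘁ Y).right_inv s
  have h1 : (tensorRightHomEquiv (𝟙_ C) X Xᘁ Y).toFun
      ((tensorRightHomEquiv (𝟙_ C) X Xᘁ Y).invFun s) = nm ((λ_ X).inv ≫ s ▷ X ≫
        (α_ Y Xᘁ X).hom ≫ Y ◁ ε_ X Xᘁ ≫ (ρ_ Y).hom) := by
    unfold nm
    change (ρ_ (𝟙_ C)).inv ≫ (𝟙_ C) ◁ η_ X Xᘁ ≫ (α_ _ _ _).inv ≫
      (s ▷ X ≫ (α_ _ _ _).hom ≫ Y ◁ ε_ X Xᘁ ≫ (ρ_ Y).hom) ▷ Xᘁ = _
    monoidal
  rw [← h1, h]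

lemma ev_surj {X Y : C} (g : Y ⊗ Xᘁ ⟶ 𝟙_ C) : ∃ h : Y ⟶ X, g = h ▷ Xᘁ ≫ ev X Xᘁ := by
  let inst := exactPairing_swap X Xᘁ
  obtain ⟨k, hk⟩ : ∃ k : Y ⟶ 𝟙_ C ⊗ X, k ▷ Xᘁ ≫ (α_ _ _ _).hom ≫ (𝟙_ C) ◁ ev X Xᘁ ≫
      (ρ_ (𝟙_ C)).hom = g :=
    ⟨(tensorRightHomEquiv Y Xᘁ X (𝟙_ C)).toFun g,
      (tensorRightHomEquiv Y Xᘁ X (𝟙_ C)).left_inv g⟩
  refine ⟨k ≫ (λ_ X).hom, ?_⟩
  rw [← hk]
  monoidal

lemma nm_ev {X Y : C} (f : X ⟶ Y) (h : Y ⟶ X) : nm f ≫ h ▷ Xᘁ ≫ ev X Xᘁ = tr X (f ≫ h) := by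
  unfold nm tr trP
  rw [comp_whiskerRight, Category.assoc, Category.assoc]

/-- the partial trace -/
def ptr {Q X : C} (h : Q ⊗ X ⟶ Q ⊗ X) : Q ⟶ Q :=
  (ρ_ Q).inv ≫ Q ◁ η_ X Xᘁ ≫ (α_ Q X Xᘁ).inv ≫ h ▷ Xᘁ ≫ (α_ Q X Xᘁ).hom ≫ Q ◁ ev X Xᘁ ≫
    (ρ_ Q).hom

lemma tr_ptr {Q X : C} (h : Q ⊗ X ⟶ Q ⊗ X) : tr (Q ⊗ X) h = tr Q (ptr h) := by
  unfold tr
  rw [trP_indep (X' := (Q ⊗ X)ᘁ) (X'' := Xᘁ ⊗ Qᘁ)]
  unfold trP
  rw [ExactPairing.tensor_coevaluation, ev_tensor]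
  unfold ptr
  monoidal

lemma ptr_left {Q X : C} (A : Q ⟶ Q) (h : Q ⊗ X ⟶ Q ⊗ X) : ptr (A ▷ X ≫ h) = A ≫ ptr h := by
  unfold ptr
  rw [comp_whiskerRight, Category.assoc, ← associator_inv_naturality_left_assoc,
    whisker_exchange_assoc, rightUnitor_inv_naturality_assoc]

lemma ptr_core (X : C) : X ◁ η_ X Xᘁ ≫ (α_ X X Xᘁ).inv ≫ (β_ X X).hom ▷ Xᘁ ≫ (α_ X X Xᘁ).hom ≫
    X ◁ ev X Xᘁ = 𝟙 (X ⊗ 𝟙_ C) := by
  unfold ev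
  have h1 : (α_ X X Xᘁ).inv ≫ (β_ X X).hom ▷ Xᘁ ≫ (α_ X X Xᘁ).hom ≫ X ◁ (β_ X Xᘁ).hom =
      (β_ X (X ⊗ Xᘁ)).hom ≫ (α_ X Xᘁ X).hom := by
    rw [braiding_tensor_right_hom]
    simp
  rw [MonoidalCategory.whiskerLeft_comp]
  have h2 : X ◁ η_ X Xᘁ ≫ (α_ X X Xᘁ).inv ≫ (β_ X X).hom ▷ Xᘁ ≫ (α_ X X Xᘁ).hom ≫
      X ◁ (β_ X Xᘁ).hom ≫ X ◁ ε_ X Xᘁ = X ◁ η_ X Xᘁ ≫ ((α_ X X Xᘁ).inv ≫ (β_ X X).hom ▷ Xᘁ ≫
        (α_ X X Xᘁ).hom ≫ X ◁ (β_ X Xᘁ).hom) ≫ X ◁ ε_ X Xᘁ := by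
    simp only [Category.assoc]
  rw [h2, h1, Category.assoc, ← Category.assoc, braiding_naturality_right, Category.assoc,
    ExactPairing.evaluation_coevaluation, braiding_tensorUnit_right]
  simp

lemma ptr_sw (P X : C) : ptr (sw P X) = 𝟙 (P ⊗ X) := by
  have h := ptr_core X
  unfold ptr sw
  calc _ = 𝟙 (P ⊗ X) ⊗≫ P ◁ (X ◁ η_ X Xᘁ ≫ (α_ X X Xᘁ).inv ≫ (β_ X X).hom ▷ Xᘁ ≫
          (α_ X X Xᘁ).hom ≫ X ◁ ev X Xᘁ) ⊗≫ 𝟙 (P ⊗ X) := by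
        monoidal
    _ = _ := by
        rw [h]
        monoidal

lemma ptr_swB (P X : C) (B : X ⟶ X) : ptr (sw P X ≫ (P ⊗ X) ◁ B) = P ◁ B := by
  have h := sw_nat' (𝟙 P) B (𝟙 X)
  have h1 : ((𝟙 P ⊗ₘ B) ⊗ₘ 𝟙 X) = (P ◁ B) ▷ X := by
    rw [id_tensorHom, tensorHom_id]
  have h2 : ((𝟙 P ⊗ₘ 𝟙 X) ⊗ₘ B) = (P ⊗ X) ◁ B := by
    rw [id_tensorHom_id, id_tensorHom]
  rw [h1, h2] at h
  rw [← h, ptr_left, ptr_sw, Category.comp_id]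

lemma tr_swap {P X : C} (A : P ⊗ X ⟶ P ⊗ X) (B : X ⟶ X) :
    tr ((P ⊗ X) ⊗ X) (A ▷ X ≫ sw P X ≫ (P ⊗ X) ◁ B) = tr (P ⊗ X) (A ≫ P ◁ B) := by
  rw [tr_ptr, ptr_left, ptr_swB]

namespace Frob

variable (W : Frob C) [IsIdempotentComplete C]

/-- Hom spaces are finite-dimensional -/
theorem rank_hom_le (X Y : C) : Module.rank ℚ (X ⟶ Y) ≤ W.mult (Y ⊗ Xᘁ) := by
  refine le_trans ?_ (W.rank_le (Y ⊗ Xᘁ))
  exact LinearMap.rank_le_of_injective (nmL X Y) (fun f g h => nm_inj h)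

include W in
theorem finite_hom (X Y : C) : Module.Finite ℚ (X ⟶ Y) := by
  have h := (W.rank_hom_le X Y).trans_lt Cardinal.natCast_lt_aleph0
  exact Module.rank_lt_aleph0_iff.mp h

theorem finrank_hom_le (X Y : C) : Module.finrank ℚ (X ⟶ Y) ≤ W.mult (Y ⊗ Xᘁ) :=
  Module.finrank_le_of_rank_le (W.rank_hom_le X Y)

/-- an object with zero traces is zero -/
theorem isZero_of_t {X : C} (h : ∀ n, W.t X n = 0) : IsZero X := by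
  have h1 : W.mult (X ⊗ Xᘁ) = 0 := by
    apply W.mult_of_zero
    intro n
    rw [W.t_tensor, h n, zero_mul]
  have h2 := W.rank_hom_le X X
  rw [h1, Nat.cast_zero, nonpos_iff_eq_zero, rank_zero_iff] at h2
  rw [IsZero.iff_id_eq_zero]
  exact Subsingleton.elim _ _

/-- an idempotent whose products with the powers of Frobenius have trace zero vanishes -/
lemma idem_zero {X : C} (e : X ⟶ X) (he : e ≫ e = e)
    (h : ∀ m, W.val (tr X (e ≫ W.Fp X m)) = 0) : e = 0 := by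
  obtain ⟨Y, i, p, h1, h2⟩ := IsIdempotentComplete.idempotents_split X e he
  have h3 : IsZero Y := by
    apply W.isZero_of_t
    intro n
    have h5 : W.Fp Y n = i ≫ (p ≫ W.Fp Y n) := by rw [← Category.assoc, h1, Category.id_comp]
    have h6 : (p ≫ W.Fp Y n) ≫ i = e ≫ W.Fp X n := by
      rw [Category.assoc, ← W.Fp_nat, ← Category.assoc, h2]
    unfold t
    rw [h5, tr_comm, h6, h]
  rw [← h2, h3.eq_of_src i 0, Limits.comp_zero]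

/-- the recursion for the traces of the projectors -/
lemma step_tr {ε N : ℚ} (hN : N + 1 ≠ 0) (P X : C) (A : P ⊗ X ⟶ P ⊗ X) (hA : A ≫ A = A) (m k : ℕ) :
    (N + 1) * W.val (tr ((P ⊗ X) ⊗ X) (stp ε N P X A ≫ (W.Fp (P ⊗ X) m ⊗ₘ W.Fp X (m * k)))) =
      W.val (tr (P ⊗ X) (A ≫ (W.Fp P m ⊗ₘ W.Fp X (m * 1)))) * W.val (tr X (W.Fp X (m * k))) -
        ε * (N * W.val (tr (P ⊗ X) (A ≫ (W.Fp P m ⊗ₘ W.Fp X (m * (k + 1)))))) := by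
  obtain ⟨Φ, hΦ⟩ : ∃ Φ, Φ = W.Fp (P ⊗ X) m := ⟨_, rfl⟩
  obtain ⟨Ψ, hΨ⟩ : ∃ Ψ, Ψ = W.Fp X (m * k) := ⟨_, rfl⟩
  have hΦ' : Φ = W.Fp P m ⊗ₘ W.Fp X (m * 1) := by rw [hΦ, W.Fp_tensor, mul_one]
  have hAΦ : A ≫ Φ = Φ ≫ A := by rw [hΦ, W.Fp_nat]
  rw [← hΦ, ← hΨ, ← hΦ']
  have hU : (Φ ⊗ₘ Ψ) = Φ ▷ X ≫ (P ⊗ X) ◁ Ψ := tensorHom_def _ _
  have hU' : (Φ ⊗ₘ Ψ) = (P ⊗ X) ◁ Ψ ≫ Φ ▷ X := tensorHom_def' _ _
  have hAU : A ▷ X ≫ (Φ ⊗ₘ Ψ) = (Φ ⊗ₘ Ψ) ≫ A ▷ X := by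
    rw [hU, ← Category.assoc, ← comp_whiskerRight, hAΦ, comp_whiskerRight, Category.assoc,
      ← whisker_exchange, Category.assoc]
  obtain ⟨M, hM⟩ : ∃ M : (P ⊗ X) ⊗ X ⟶ (P ⊗ X) ⊗ X, M = 𝟙 _ - N • (ε • sw P X) := ⟨_, rfl⟩
  have e1 : tr _ (stp ε N P X A ≫ (Φ ⊗ₘ Ψ)) = (N + 1)⁻¹ • tr _ (A ▷ X ≫ M ≫ (Φ ⊗ₘ Ψ)) := by
    unfold stp
    rw [← hM, Linear.smul_comp, tr_smul, Category.assoc, Category.assoc, hAU, ← Category.assoc,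
      ← Category.assoc, tr_comm, ← Category.assoc, ← Category.assoc, ← comp_whiskerRight, hA,
      Category.assoc]
  have e2 : tr _ (A ▷ X ≫ M ≫ (Φ ⊗ₘ Ψ)) =
      tr _ (A ▷ X ≫ (Φ ⊗ₘ Ψ)) - (N * ε) • tr _ (A ▷ X ≫ sw P X ≫ (Φ ⊗ₘ Ψ)) := by
    rw [hM, Preadditive.sub_comp, Category.id_comp, Preadditive.comp_sub, tr_sub, smul_smul,
      Linear.smul_comp, Linear.comp_smul, tr_smul]
  have e3 : tr _ (A ▷ X ≫ (Φ ⊗ₘ Ψ)) = W.val (tr X Ψ) • tr (P ⊗ X) (A ≫ Φ) := by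
    have e4 : A ▷ X ≫ (Φ ⊗ₘ Ψ) = (A ≫ Φ) ⊗ₘ Ψ := by
      rw [← tensorHom_id, MonoidalCategory.tensorHom_comp_tensorHom, Category.id_comp]
    rw [e4, W.tr_tensor]
  have e5 : tr _ (A ▷ X ≫ sw P X ≫ (Φ ⊗ₘ Ψ)) =
      tr (P ⊗ X) (A ≫ (W.Fp P m ⊗ₘ W.Fp X (m * (k + 1)))) := by
    have e6 : A ▷ X ≫ sw P X ≫ (Φ ⊗ₘ Ψ) = (A ▷ X ≫ sw P X ≫ (P ⊗ X) ◁ Ψ) ≫ Φ ▷ X := by
      rw [hU', Category.assoc, Category.assoc]
    rw [e6, tr_comm, ← Category.assoc, ← comp_whiskerRight, tr_swap, ← hAΦ, Category.assoc]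
    congr 2
    rw [hΦ', ← id_tensorHom, MonoidalCategory.tensorHom_comp_tensorHom, Category.comp_id, hΨ]
    congr 1
    have e7 : m * (k + 1) = m * 1 + m * k := by ring
    rw [e7]
    exact (pw_add _ _ _).symm
  rw [e1, e2, e3, e5, W.val_smul, W.val_sub, W.val_smul, W.val_smul]
  field_simp

/-- the traces of the projectors -/
def cc (ε : ℚ) (X : C) (m n k : ℕ) : ℚ :=
  W.val (tr (T X n ⊗ X) (pj ε X (n + 1) ≫ (W.Fp (T X n) m ⊗ₘ W.Fp X (m * k)) :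
    (T X n ⊗ X) ⟶ (T X n ⊗ X)))

lemma cc_zero (ε : ℚ) (X : C) (m k : ℕ) : W.cc ε X m 0 k = W.t X (m * k) := by
  unfold cc
  have h1 : (pj ε X (0 + 1) ≫ (W.Fp (T X 0) m ⊗ₘ W.Fp X (m * k)) :
      (T X 0 ⊗ X) ⟶ (T X 0 ⊗ X)) = (𝟙 (𝟙_ C) ⊗ₘ W.Fp X (m * k)) := by
    have h2 : W.Fp (T X 0) m = 𝟙 (𝟙_ C) := W.Fp_of_one W.F_unit m
    rw [h2]
    exact Category.id_comp _
  rw [h1]
  have h3 := W.tr_tensor (𝟙_ C) X (𝟙 _) (W.Fp X (m * k))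
  refine (congrArg W.val h3).trans ?_
  rw [W.val_smul, tr_unit, W.val_id, mul_one]
  rfl

lemma cc_succ {ε : ℚ} (hε : ε * ε = 1) (X : C) (m n k : ℕ) :
    ((n : ℚ) + 2) * W.cc ε X m (n + 1) k = W.cc ε X m n 1 * W.t X (m * k) -
      ε * (((n : ℚ) + 1) * W.cc ε X m n (k + 1)) := by
  have h := W.step_tr (ε := ε) (N := (n : ℚ) + 1) (by positivity) (T X n) X (pj ε X (n + 1))
    (pj_idem hε X (n + 1)) m k
  have e : (n : ℚ) + 1 + 1 = (n : ℚ) + 2 := by ring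
  rw [e] at h
  exact h

/-- the projector vanishes when the traces are ε times power sums of few numbers -/
lemma pj_zero {ε : ℚ} (hε : ε * ε = 1) (X : C) (γ : Multiset ℂ)
    (h : ∀ n, (W.t X n : ℂ) = ε * (γ.map (fun z => z ^ n)).sum) (n : ℕ)
    (hn : Multiset.card γ ≤ n) : pj ε X (n + 1) = 0 := by
  apply W.idem_zero _ (pj_idem hε X (n + 1))
  intro m
  have h1 : W.val (tr (T X (n + 1)) (pj ε X (n + 1) ≫ W.Fp (T X (n + 1)) m)) = W.cc ε X m n 1 := by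
    unfold cc
    have e1 : W.Fp (T X (n + 1)) m = (W.Fp (T X n) m ⊗ₘ W.Fp X (m * 1)) := by
      rw [mul_one]
      exact W.Fp_tensor (T X n) X m
    rw [e1]
    rfl
  rw [h1]
  have h2 := newton_zero (γ.map (fun z => z ^ m)) (fun n k => (W.cc ε X m n k : ℂ)) ε
    (by
      intro k
      rw [W.cc_zero, h, Multiset.map_map]
      congr 2
      apply Multiset.map_congr rfl
      intro z _
      exact pow_mul z m k)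
    (by
      intro n k
      have h3 := W.cc_succ hε X m n k
      have h4 : (((n : ℚ) + 2) * W.cc ε X m (n + 1) k : ℂ) = (W.cc ε X m n 1 * W.t X (m * k) -
        ε * (((n : ℚ) + 1) * W.cc ε X m n (k + 1)) : ℂ) := by exact_mod_cast h3
      rw [h] at h4
      have h5 : ((γ.map (fun z => z ^ m)).map (fun x => x ^ k)).sum =
          (γ.map (fun z => z ^ (m * k))).sum := by
        rw [Multiset.map_map]
        congr 1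
        apply Multiset.map_congr rfl
        intro z _
        exact (pow_mul z m k).symm
      rw [h5]
      push_cast at h4
      exact h4)
    n (by rw [Multiset.card_map]; exact hn)
  exact_mod_cast h2

end Frob

end

end MotP
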